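import Mathlib

/-! A periodic word for which every output of a finite set of starting states is trapped. -/

set_option autoImplicit false

open Filter Topology

namespace Pool.Agent.Q77.Semi

section

variable {S : Type*} {J : ℕ}

/-- the action of a word -/
def rn (g : Fin J → S → S) (w : List (Fin J)) (x : S) : S := w.foldl (fun x j => g j x) x

theorem rn_cons (g : Fin J → S → S) (j : Fin J) (w : List (Fin J)) (x : S) :
    rn g (j :: w) x = rn g w (g j x) := rfl

theorem rn_append (g : Fin J → S → S) (u w : List (Fin J)) (x : S) :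
    rn g (u ++ w) x = rn g w (rn g u x) := by
  unfold rn; rw [List.foldl_append]

theorem rn_mem {g : Fin J → S → S} {W : Set S} (hW : ∀ j, ∀ x ∈ W, g j x ∈ W) (w : List (Fin J))
    {x : S} (hx : x ∈ W) : rn g w x ∈ W := by
  induction w generalizing x with
  | nil => exact hx
  | cons j w ih => rw [rn_cons]; exact ih (hW j x hx)

/-- all words of length `k` -/
def words (J : ℕ) : ℕ → Finset (List (Fin J))
  | 0 => {[]}
  | k + 1 => ((Finset.univ : Finset (Fin J)) ×ˢ words J k).image (fun p => p.1 :: p.2)

theorem card_words (J k : ℕ) : (words J k).card = J ^ k := by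
  induction k with
  | zero => rfl
  | succ k ih =>
    rw [words, Finset.card_image_of_injective, Finset.card_product, ih, Finset.card_univ,
      Fintype.card_fin, pow_succ, mul_comm]
    rintro ⟨a, b⟩ ⟨c, d⟩ h
    simp only [List.cons.injEq] at h
    exact Prod.ext h.1 h.2

theorem length_words {J k : ℕ} {u : List (Fin J)} (hu : u ∈ words J k) : u.length = k := by
  induction k generalizing u with
  | zero =>
    rw [words, Finset.mem_singleton] at hu
    rw [hu]; rfl
  | succ k ih =>
    rw [words, Finset.mem_image] at hu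
    obtain ⟨⟨a, b⟩, h1, rfl⟩ := hu
    rw [Finset.mem_product] at h1
    simp [ih h1.2]

open Classical in
/-- few words of length `k` do not trap a given state -/
theorem card_bad {g : Fin J → S → S} {W : Set S} (hW : ∀ j, ∀ x ∈ W, g j x ∈ W)
    (hg : ∀ x, ∃ j, g j x ∈ W) (k : ℕ) (s : S) :
    ((words J k).filter (fun u => rn g u s ∉ W)).card ≤ (J - 1) ^ k := by
  induction k generalizing s with
  | zero =>
    rw [pow_zero]
    exact (Finset.card_filter_le _ _).trans (by simp [words])
  | succ k ih =>
    have h1 : (words J (k + 1)).filter (fun u => rn g u s ∉ W) ⊆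
        ((Finset.univ : Finset (Fin J)).filter (fun j => g j s ∉ W)).biUnion
          (fun j => ((words J k).filter (fun u => rn g u (g j s) ∉ W)).image (fun u => j :: u)) := by
      intro u hu
      rw [Finset.mem_filter, words, Finset.mem_image] at hu
      obtain ⟨⟨⟨j, v⟩, h1, rfl⟩, h2⟩ := hu
      rw [Finset.mem_product] at h1
      simp only at h2 ⊢
      rw [rn_cons] at h2
      rw [Finset.mem_biUnion]
      refine ⟨j, ?_, ?_⟩
      · rw [Finset.mem_filter]
        exact ⟨Finset.mem_univ _, fun h => h2 (rn_mem hW v h)⟩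
      · rw [Finset.mem_image]
        exact ⟨v, Finset.mem_filter.2 ⟨h1.2, h2⟩, rfl⟩
    have h2 : ((Finset.univ : Finset (Fin J)).filter (fun j => g j s ∉ W)).card ≤ J - 1 := by
      obtain ⟨j, hj⟩ := hg s
      have h3 : (Finset.univ : Finset (Fin J)).filter (fun j => g j s ∉ W) ⊆
          Finset.univ.erase j := by
        intro i hi
        rw [Finset.mem_filter] at hi
        rw [Finset.mem_erase]
        exact ⟨fun h => hi.2 (h ▸ hj), Finset.mem_univ _⟩
      refine (Finset.card_le_card h3).trans ?_
      rw [Finset.card_erase_of_mem (Finset.mem_univ _), Finset.card_univ, Fintype.card_fin]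
    calc ((words J (k + 1)).filter (fun u => rn g u s ∉ W)).card
        ≤ _ := Finset.card_le_card h1
      _ ≤ ∑ j ∈ (Finset.univ : Finset (Fin J)).filter (fun j => g j s ∉ W),
          (((words J k).filter (fun u => rn g u (g j s) ∉ W)).image (fun u => j :: u)).card :=
          Finset.card_biUnion_le
      _ ≤ ∑ j ∈ (Finset.univ : Finset (Fin J)).filter (fun j => g j s ∉ W), (J - 1) ^ k :=
          Finset.sum_le_sum fun j _ => Finset.card_image_le.trans (ih _)
      _ = ((Finset.univ : Finset (Fin J)).filter (fun j => g j s ∉ W)).card * (J - 1) ^ k := by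
          rw [Finset.sum_const, smul_eq_mul]
      _ ≤ (J - 1) * (J - 1) ^ k := Nat.mul_le_mul_right _ h2
      _ = (J - 1) ^ (k + 1) := by rw [pow_succ, mul_comm]

open Classical in
/-- the states at the end of the word of the critical values which occur on the way -/
noncomputable def outs (g : Fin J → S → S) (V : Fin J → Finset S) : List (Fin J) → Finset S
  | [] => ∅
  | j :: b => (V j).image (rn g b) ∪ outs g V b

open Classical in
theorem outs_append (g : Fin J → S → S) (V : Fin J → Finset S) (u w : List (Fin J)) :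
    outs g V (u ++ w) = (outs g V u).image (rn g w) ∪ outs g V w := by
  induction u with
  | nil => simp [outs]
  | cons j u ih =>
    rw [List.cons_append, outs, outs, ih, Finset.image_union, Finset.image_image]
    have : rn g w ∘ rn g u = rn g (u ++ w) := by
      funext x; rw [rn_append]; rfl
    rw [this, Finset.union_assoc]

theorem mem_outs {g : Fin J → S → S} {V : Fin J → Finset S} (a b : List (Fin J)) (j : Fin J)
    {v : S} (hv : v ∈ V j) : rn g b v ∈ outs g V (a ++ j :: b) := by
  classical
  induction a with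
  | nil =>
    rw [List.nil_append, outs, Finset.mem_union]
    exact Or.inl (Finset.mem_image_of_mem _ hv)
  | cons i a ih =>
    rw [List.cons_append, outs, Finset.mem_union]
    exact Or.inr ih

theorem card_outs {g : Fin J → S → S} {V : Fin J → Finset S} {K : ℕ} (hK : ∀ j, (V j).card ≤ K)
    (u : List (Fin J)) : (outs g V u).card ≤ K * u.length := by
  classical
  induction u with
  | nil => simp [outs]
  | cons j u ih =>
    rw [outs, List.length_cons]
    calc _ ≤ ((V j).image (rn g u)).card + (outs g V u).card := Finset.card_union_le _ _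
      _ ≤ K + K * u.length := Nat.add_le_add (Finset.card_image_le.trans (hK j)) ih
      _ = K * (u.length + 1) := by ring

theorem exists_k (K J : ℕ) (hJ : 1 ≤ J) : ∃ k : ℕ, 1 ≤ k ∧ 2 * (K * k * (J - 1) ^ k) < J ^ k := by
  have hJ0 : (0 : ℝ) < J := by exact_mod_cast hJ
  set r : ℝ := ((J - 1 : ℕ) : ℝ) / J with hr
  have hr0 : 0 ≤ r := by positivity
  have hr1 : r < 1 := by
    rw [hr, div_lt_one hJ0]
    have : J - 1 < J := by omega
    exact_mod_cast this
  have h1 := (tendsto_self_mul_const_pow_of_lt_one hr0 hr1).const_mul (2 * (K : ℝ))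
  rw [mul_zero] at h1
  have h2 := h1.eventually (gt_mem_nhds one_pos)
  obtain ⟨k, hk1, hk⟩ := (h2.and (eventually_ge_atTop 1)).exists
  refine ⟨k, hk, ?_⟩
  have h3 : (0 : ℝ) < (J : ℝ) ^ k := by positivity
  have h4 : r ^ k = ((J - 1 : ℕ) : ℝ) ^ k / (J : ℝ) ^ k := by rw [hr, div_pow]
  rw [h4] at hk1
  have h5 : 2 * (K : ℝ) * (k * (((J - 1 : ℕ) : ℝ) ^ k / (J : ℝ) ^ k)) * (J : ℝ) ^ k <
      1 * (J : ℝ) ^ k := by
    gcongr
  have h6 : 2 * (K : ℝ) * (k * (((J - 1 : ℕ) : ℝ) ^ k / (J : ℝ) ^ k)) * (J : ℝ) ^ k =
      2 * (K * k * ((J - 1 : ℕ) : ℝ) ^ k) := by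
    field_simp
  rw [h6, one_mul] at h5
  exact_mod_cast h5

/-- **The combinatorial lemma.** -/
theorem comb [Nonempty S] (g : Fin J → S → S) (W : Set S) (hW : ∀ j, ∀ x ∈ W, g j x ∈ W)
    (hg : ∀ x, ∃ j, g j x ∈ W) (V : Fin J → Finset S) :
    ∃ w : List (Fin J), w ≠ [] ∧ ∀ (a b : List (Fin J)) (j : Fin J), w = a ++ j :: b →
      ∀ v ∈ V j, rn g w (rn g b v) ∈ W := by
  classical
  have hJ : 1 ≤ J := by
    obtain ⟨x⟩ := ‹Nonempty S›
    obtain ⟨j, -⟩ := hg x
    have := j.2
    omega
  obtain ⟨K, hK⟩ : ∃ K : ℕ, ∀ j, (V j).card ≤ K :=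
    ⟨∑ j, (V j).card, fun j => Finset.single_le_sum (f := fun j => (V j).card)
      (fun _ _ => Nat.zero_le _) (Finset.mem_univ j)⟩
  obtain ⟨k, hk1, hk⟩ := exists_k K J hJ
  -- a good pair
  have hpair : ∃ u ∈ words J k, ∃ w ∈ words J k, (∀ t ∈ outs g V u, rn g w t ∈ W) ∧
      ∀ s ∈ outs g V w, rn g u s ∈ W := by
    by_contra hcon
    push Not at hcon
    set bad : S → Finset (List (Fin J)) := fun t => (words J k).filter (fun u => rn g u t ∉ W)
      with hbad
    set A1 : Finset (List (Fin J) × List (Fin J)) := (words J k).biUnion (fun u =>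
      (outs g V u).biUnion (fun t => (bad t).image (fun w => (u, w)))) with hA1
    set A2 : Finset (List (Fin J) × List (Fin J)) := (words J k).biUnion (fun w =>
      (outs g V w).biUnion (fun s => (bad s).image (fun u => (u, w)))) with hA2
    have hsub : words J k ×ˢ words J k ⊆ A1 ∪ A2 := by
      rintro ⟨u, w⟩ huw
      rw [Finset.mem_product] at huw
      rw [Finset.mem_union]
      by_cases h : ∀ t ∈ outs g V u, rn g w t ∈ W
      · obtain ⟨s, hs1, hs2⟩ := hcon u huw.1 w huw.2 h
        right
        rw [hA2, Finset.mem_biUnion]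
        refine ⟨w, huw.2, ?_⟩
        rw [Finset.mem_biUnion]
        refine ⟨s, hs1, ?_⟩
        rw [Finset.mem_image]
        exact ⟨u, Finset.mem_filter.2 ⟨huw.1, hs2⟩, rfl⟩
      · push Not at h
        obtain ⟨t, ht1, ht2⟩ := h
        left
        rw [hA1, Finset.mem_biUnion]
        refine ⟨u, huw.1, ?_⟩
        rw [Finset.mem_biUnion]
        refine ⟨t, ht1, ?_⟩
        rw [Finset.mem_image]
        exact ⟨w, Finset.mem_filter.2 ⟨huw.2, ht2⟩, rfl⟩
    have hb : ∀ t, (bad t).card ≤ (J - 1) ^ k := fun t => card_bad hW hg k t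
    have ho : ∀ u ∈ words J k, (outs g V u).card ≤ K * k := by
      intro u hu
      have := card_outs (g := g) hK u
      rwa [length_words hu] at this
    have c1 : A1.card ≤ J ^ k * (K * k * (J - 1) ^ k) := by
      calc A1.card ≤ ∑ u ∈ words J k, ((outs g V u).biUnion
            (fun t => (bad t).image (fun w => (u, w)))).card := Finset.card_biUnion_le
        _ ≤ ∑ u ∈ words J k, K * k * (J - 1) ^ k := by
            refine Finset.sum_le_sum fun u hu => ?_
            calc _ ≤ ∑ t ∈ outs g V u, ((bad t).image (fun w => (u, w))).card :=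
                  Finset.card_biUnion_le
              _ ≤ ∑ t ∈ outs g V u, (J - 1) ^ k :=
                  Finset.sum_le_sum fun t _ => Finset.card_image_le.trans (hb t)
              _ = (outs g V u).card * (J - 1) ^ k := by rw [Finset.sum_const, smul_eq_mul]
              _ ≤ K * k * (J - 1) ^ k := Nat.mul_le_mul_right _ (ho u hu)
        _ = J ^ k * (K * k * (J - 1) ^ k) := by
            rw [Finset.sum_const, smul_eq_mul, card_words]
    have c2 : A2.card ≤ J ^ k * (K * k * (J - 1) ^ k) := by
      calc A2.card ≤ ∑ w ∈ words J k, ((outs g V w).biUnion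
            (fun s => (bad s).image (fun u => (u, w)))).card := Finset.card_biUnion_le
        _ ≤ ∑ w ∈ words J k, K * k * (J - 1) ^ k := by
            refine Finset.sum_le_sum fun u hu => ?_
            calc _ ≤ ∑ t ∈ outs g V u, ((bad t).image (fun w => (w, u))).card :=
                  Finset.card_biUnion_le
              _ ≤ ∑ t ∈ outs g V u, (J - 1) ^ k :=
                  Finset.sum_le_sum fun t _ => Finset.card_image_le.trans (hb t)
              _ = (outs g V u).card * (J - 1) ^ k := by rw [Finset.sum_const, smul_eq_mul]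
              _ ≤ K * k * (J - 1) ^ k := Nat.mul_le_mul_right _ (ho u hu)
        _ = J ^ k * (K * k * (J - 1) ^ k) := by
            rw [Finset.sum_const, smul_eq_mul, card_words]
    have c3 : J ^ k * J ^ k ≤ J ^ k * (2 * (K * k * (J - 1) ^ k)) := by
      calc J ^ k * J ^ k = (words J k ×ˢ words J k).card := by
            rw [Finset.card_product, card_words]
        _ ≤ (A1 ∪ A2).card := Finset.card_le_card hsub
        _ ≤ A1.card + A2.card := Finset.card_union_le _ _
        _ ≤ J ^ k * (K * k * (J - 1) ^ k) + J ^ k * (K * k * (J - 1) ^ k) := Nat.add_le_add c1 c2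
        _ = J ^ k * (2 * (K * k * (J - 1) ^ k)) := by ring
    have hJk : 0 < J ^ k := Nat.pow_pos (by omega)
    have c4 := Nat.le_of_mul_le_mul_left c3 hJk
    omega
  obtain ⟨u, hu, w, hw, h1, h2⟩ := hpair
  refine ⟨u ++ w, ?_, ?_⟩
  · intro h
    rw [List.append_eq_nil_iff] at h
    have := length_words hu
    rw [h.1] at this
    simp at this
    omega
  · intro a b j hab v hv
    have h3 : rn g b v ∈ outs g V (u ++ w) := by rw [hab]; exact mem_outs a b j hv
    rw [outs_append, Finset.mem_union, Finset.mem_image] at h3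
    rw [rn_append]
    rcases h3 with ⟨t, ht, hts⟩ | h3
    · rw [← hts]
      exact rn_mem hW _ (rn_mem hW _ (h1 t ht))
    · exact rn_mem hW _ (h2 _ h3)

end

end Pool.Agent.Q77.Semi
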