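import Mathlib

/-! Holomorphic self-maps of a bounded open set of the plane whose image has a neighbourhood of
fixed size inside the set: every orbit enters a small disc which is mapped into itself by an
iterate, with contraction (an elementary form of the theorem of Earle and Hamilton). -/

set_option autoImplicit false

open Topology Filter Metric Set

namespace Pool.Agent.Q77.Semi

/-- holomorphic functions bounded by one -/
def fam (V : Set ℂ) : Set (ℂ → ℂ) := {h | DifferentiableOn ℂ h V ∧ ∀ w ∈ V, ‖h w‖ ≤ 1}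

theorem fam_deriv_le {V : Set ℂ} {h : ℂ → ℂ} (hh : h ∈ fam V) {z : ℂ} {ρ : ℝ} (hρ : 0 < ρ)
    (hz : closedBall z ρ ⊆ V) : ‖deriv h z‖ ≤ 1 / ρ := by
  apply Complex.norm_deriv_le_of_forall_mem_sphere_norm_le hρ
  · apply DifferentiableOn.diffContOnCl
    rw [closure_ball z hρ.ne']
    exact hh.1.mono hz
  · intro w hw
    exact hh.2 w (hz (sphere_subset_closedBall hw))

theorem iter_mem {V : Set ℂ} {F : ℂ → ℂ} (hF : ∀ z ∈ V, F z ∈ V) (n : ℕ) {z : ℂ} (hz : z ∈ V) :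
    F^[n] z ∈ V := by
  induction n with
  | zero => simpa using hz
  | succ n ih => rw [Function.iterate_succ_apply']; exact hF _ ih

theorem iter_diff {V : Set ℂ} (hV : IsOpen V) {F : ℂ → ℂ} (hd : DifferentiableOn ℂ F V)
    (hF : ∀ z ∈ V, F z ∈ V) (n : ℕ) {z : ℂ} (hz : z ∈ V) : DifferentiableAt ℂ (F^[n]) z := by
  induction n with
  | zero => simpa using differentiableAt_id
  | succ n ih =>
    rw [Function.iterate_succ']
    exact (hd.differentiableAt (hV.mem_nhds (iter_mem hF n hz))).comp z ih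

/-- the contraction of the Carathéodory metric -/
theorem contr {V : Set ℂ} (hV : IsOpen V) {F : ℂ → ℂ} (hd : DifferentiableOn ℂ F V) {M r δ : ℝ}
    (hr : 0 < r) (hδ : 0 < δ) (hM : ∀ z ∈ V, ‖z‖ ≤ M) (hball : ∀ z ∈ V, ball (F z) r ⊆ V)
    (hδr : δ * (2 * M) < r) (n : ℕ) : ∀ h ∈ fam V, ∀ z ∈ V, ∀ A : ℝ,
    (∀ k ∈ fam V, ‖deriv k z‖ ≤ A) → (1 + δ) ^ n * ‖deriv (h ∘ F^[n]) z‖ ≤ A := by
  have hF : ∀ z ∈ V, F z ∈ V := fun z hz => hball z hz (mem_ball_self hr)
  induction n with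
  | zero =>
    intro h hh z _ A hA
    simpa using hA h hh
  | succ n ih =>
    intro h hh z hz A hA
    set y := F^[n] z with hy
    have hyV : y ∈ V := iter_mem hF n hz
    set G : ℂ → ℂ := fun w => F w + δ * (F w - F y) with hG
    have hGV : ∀ w ∈ V, G w ∈ V := by
      intro w hw
      apply hball w hw
      rw [mem_ball, dist_eq_norm, hG]
      simp only [add_sub_cancel_left, norm_mul, Complex.norm_real, Real.norm_eq_abs, abs_of_pos hδ]
      have h1 : ‖F w - F y‖ ≤ 2 * M := by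
        calc ‖F w - F y‖ ≤ ‖F w‖ + ‖F y‖ := norm_sub_le _ _
          _ ≤ 2 * M := by linarith [hM _ (hF w hw), hM _ (hF y hyV)]
      calc δ * ‖F w - F y‖ ≤ δ * (2 * M) := by gcongr
        _ < r := hδr
    have hk : h ∘ G ∈ fam V := by
      refine ⟨hh.1.comp ?_ hGV, fun w hw => hh.2 _ (hGV w hw)⟩
      exact hd.add ((hd.sub_const _).const_mul _)
    have h1 := ih (h ∘ G) hk z hz A hA
    have hFd : DifferentiableAt ℂ F y := hd.differentiableAt (hV.mem_nhds hyV)
    have hnd : DifferentiableAt ℂ (F^[n]) z := iter_diff hV hd hF n hz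
    have hhd : DifferentiableAt ℂ h (F y) := hh.1.differentiableAt (hV.mem_nhds (hF y hyV))
    have hGy : G y = F y := by simp [hG]
    have hGd : HasDerivAt G ((1 + δ) * deriv F y) y := by
      have h2 := hFd.hasDerivAt.add ((hFd.hasDerivAt.sub_const (F y)).const_mul (δ : ℂ))
      have e : deriv F y + (δ : ℂ) * deriv F y = (1 + δ) * deriv F y := by ring
      rw [e] at h2
      exact h2
    have e1 : deriv ((h ∘ G) ∘ F^[n]) z = deriv h (F y) * ((1 + δ) * deriv F y) *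
        deriv (F^[n]) z := by
      have h3 : HasDerivAt h (deriv h (F y)) (G y) := by rw [hGy]; exact hhd.hasDerivAt
      exact ((h3.comp y hGd).comp z hnd.hasDerivAt).deriv
    have e2 : deriv (h ∘ F^[n + 1]) z = deriv h (F y) * deriv F y * deriv (F^[n]) z := by
      rw [Function.iterate_succ', ← Function.comp_assoc]
      exact ((hhd.hasDerivAt.comp y hFd.hasDerivAt).comp z hnd.hasDerivAt).deriv
    have e3 : ‖deriv ((h ∘ G) ∘ F^[n]) z‖ = (1 + δ) * ‖deriv (h ∘ F^[n + 1]) z‖ := by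
      rw [e1, e2]
      simp only [norm_mul]
      have : ‖(1 + δ : ℂ)‖ = 1 + δ := by
        have : (1 + δ : ℂ) = ((1 + δ : ℝ) : ℂ) := by push_cast; ring
        rw [this, Complex.norm_real, Real.norm_eq_abs, abs_of_pos (by linarith)]
      rw [this]
      ring
    rw [e3] at h1
    calc (1 + δ) ^ (n + 1) * ‖deriv (h ∘ F^[n + 1]) z‖
        = (1 + δ) ^ n * ((1 + δ) * ‖deriv (h ∘ F^[n + 1]) z‖) := by ring
      _ ≤ A := h1

theorem deriv_iter {V : Set ℂ} (hV : IsOpen V) {F : ℂ → ℂ} (hd : DifferentiableOn ℂ F V)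
    {M r δ : ℝ} (hr : 0 < r) (hδ : 0 < δ) (hM0 : 0 < M) (hM : ∀ z ∈ V, ‖z‖ ≤ M)
    (hball : ∀ z ∈ V, ball (F z) r ⊆ V) (hδr : δ * (2 * M) < r) (n : ℕ) {z : ℂ} {ρ : ℝ}
    (hρ : 0 < ρ) (hz : closedBall z ρ ⊆ V) :
    ‖deriv (F^[n]) z‖ ≤ M / ρ / (1 + δ) ^ n := by
  have hF : ∀ z ∈ V, F z ∈ V := fun z hz => hball z hz (mem_ball_self hr)
  have hzV : z ∈ V := hz (mem_closedBall_self hρ.le)
  have hh : (fun w : ℂ => w / M) ∈ fam V := by
    refine ⟨(differentiable_id.div_const _).differentiableOn, fun w hw => ?_⟩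
    rw [norm_div, Complex.norm_real, Real.norm_eq_abs, abs_of_pos hM0, div_le_one hM0]
    exact hM w hw
  have h1 := contr hV hd hr hδ hM hball hδr n _ hh z hzV (1 / ρ)
    (fun k hk => fam_deriv_le hk hρ hz)
  have hnd : DifferentiableAt ℂ (F^[n]) z := iter_diff hV hd hF n hzV
  have e : deriv ((fun w : ℂ => w / M) ∘ F^[n]) z = deriv (F^[n]) z / M := by
    have : ((fun w : ℂ => w / M) ∘ F^[n]) = fun w => F^[n] w / M := rfl
    rw [this, deriv_div_const]
  rw [e, norm_div, Complex.norm_real, Real.norm_eq_abs, abs_of_pos hM0] at h1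
  have hp : 0 < (1 + δ) ^ n := by positivity
  rw [le_div_iff₀ hp]
  have h2 : (1 + δ) ^ n * ‖deriv (F^[n]) z‖ = ((1 + δ) ^ n * (‖deriv (F^[n]) z‖ / M)) * M := by
    field_simp
  calc ‖deriv (F^[n]) z‖ * (1 + δ) ^ n = ((1 + δ) ^ n * (‖deriv (F^[n]) z‖ / M)) * M := by
        rw [← h2]; ring
    _ ≤ 1 / ρ * M := by gcongr
    _ = M / ρ := by ring

theorem plane {V : Set ℂ} (hV : IsOpen V) {F : ℂ → ℂ} (hd : DifferentiableOn ℂ F V) {M r : ℝ}
    (hr : 0 < r) (hM0 : 0 < M) (hM : ∀ z ∈ V, ‖z‖ ≤ M) (hball : ∀ z ∈ V, ball (F z) r ⊆ V)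
    {x : ℂ} (hx : x ∈ V) :
    ∃ (m p : ℕ) (ρ : ℝ), 0 < p ∧ 0 < ρ ∧ closedBall (F^[m] x) ρ ⊆ V ∧
      ∀ z ∈ closedBall (F^[m] x) ρ, F^[p] z ∈ closedBall (F^[m] x) (3 / 4 * ρ) ∧
        ∀ w ∈ closedBall (F^[m] x) ρ, ‖F^[p] z - F^[p] w‖ ≤ 1 / 4 * ‖z - w‖ := by
  have hF : ∀ z ∈ V, F z ∈ V := fun z hz => hball z hz (mem_ball_self hr)
  set δ : ℝ := r / (4 * M) with hδd
  have hδ : 0 < δ := by positivity
  have hδr : δ * (2 * M) < r := by
    have : δ * (2 * M) = r / 2 := by rw [hδd]; field_simp; ring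
    rw [this]; linarith
  -- a long time
  obtain ⟨n₀, hn₀⟩ : ∃ n₀ : ℕ, ∀ n ≥ n₀, M / (r / 2) / (1 + δ) ^ n ≤ 1 / 4 := by
    have h1 : Tendsto (fun n : ℕ => M / (r / 2) / (1 + δ) ^ n) atTop (𝓝 0) :=
      Tendsto.div_atTop tendsto_const_nhds (tendsto_pow_atTop_atTop_of_one_lt (by linarith))
    have h2 := h1.eventually (ge_mem_nhds (show (0 : ℝ) < 1 / 4 by norm_num))
    exact eventually_atTop.1 h2
  -- two close points of the orbit
  set y : ℕ → ℂ := fun j => F^[j * (n₀ + 1) + 1] x with hy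
  have hyV : ∀ j, y j ∈ V := fun j => iter_mem hF _ hx
  obtain ⟨a, -, φ, hφ, hlim⟩ := (isCompact_closedBall (0 : ℂ) M).tendsto_subseq (x := y)
    (fun j => by rw [mem_closedBall_zero_iff]; exact hM _ (hyV j))
  obtain ⟨k, hk⟩ := (Metric.tendsto_atTop.1 hlim (r / 16) (by positivity))
  have hk1 := hk k le_rfl
  have hk2 := hk (k + 1) (Nat.le_succ k)
  have hφk : φ k < φ (k + 1) := hφ (Nat.lt_succ_self k)
  set m := φ k * (n₀ + 1) + 1 with hm
  set p := (φ (k + 1) - φ k) * (n₀ + 1) with hp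
  have hmp : p + m = φ (k + 1) * (n₀ + 1) + 1 := by
    rw [hp, hm, Nat.sub_mul]
    have : φ k * (n₀ + 1) ≤ φ (k + 1) * (n₀ + 1) := Nat.mul_le_mul_right _ hφk.le
    omega
  have hpn : n₀ ≤ p := by
    have h1 : 1 ≤ φ (k + 1) - φ k := by omega
    calc n₀ ≤ 1 * (n₀ + 1) := by omega
      _ ≤ p := Nat.mul_le_mul_right _ h1
  have hp0 : 0 < p := by
    have h1 : 1 ≤ φ (k + 1) - φ k := by omega
    exact Nat.mul_pos h1 (Nat.succ_pos _)
  have hc : F^[m] x = F (F^[φ k * (n₀ + 1)] x) := by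
    rw [hm, Function.iterate_succ_apply']
  have hcV : ball (F^[m] x) r ⊆ V := by rw [hc]; exact hball _ (iter_mem hF _ hx)
  have hsub : ∀ z ∈ closedBall (F^[m] x) (r / 4), closedBall z (r / 2) ⊆ V := by
    intro z hz
    refine Subset.trans ?_ hcV
    intro w hw
    rw [mem_closedBall] at hz hw
    rw [mem_ball]
    calc dist w (F^[m] x) ≤ dist w z + dist z (F^[m] x) := dist_triangle _ _ _
      _ < r := by linarith
  have hder : ∀ z ∈ closedBall (F^[m] x) (r / 4), ‖deriv (F^[p]) z‖ ≤ 1 / 4 := fun z hz =>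
    (deriv_iter hV hd hr hδ hM0 hM hball hδr p (by positivity) (hsub z hz)).trans (hn₀ p hpn)
  have hlip : ∀ z ∈ closedBall (F^[m] x) (r / 4), ∀ w ∈ closedBall (F^[m] x) (r / 4),
      ‖F^[p] z - F^[p] w‖ ≤ 1 / 4 * ‖z - w‖ := by
    intro z hz w hw
    refine (convex_closedBall _ _).norm_image_sub_le_of_norm_deriv_le (𝕜 := ℂ)
      (fun u hu => ?_) hder hw hz
    exact iter_diff hV hd hF p (hsub u hu (mem_closedBall_self (by positivity)))
  have hcc : dist (F^[p] (F^[m] x)) (F^[m] x) < r / 8 := by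
    rw [← Function.iterate_add_apply, hmp]
    have e1 : F^[φ (k + 1) * (n₀ + 1) + 1] x = y (φ (k + 1)) := rfl
    have e2 : F^[m] x = y (φ k) := rfl
    rw [e1, e2]
    calc dist (y (φ (k + 1))) (y (φ k)) ≤ dist (y (φ (k + 1))) a + dist a (y (φ k)) :=
          dist_triangle _ _ _
      _ < r / 8 := by
          have h1 : dist (y (φ (k + 1))) a < r / 16 := hk2
          have h2 : dist a (y (φ k)) < r / 16 := by rw [dist_comm]; exact hk1
          linarith
  refine ⟨m, p, r / 4, hp0, by positivity, ?_, ?_⟩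
  · exact (closedBall_subset_ball (by linarith)).trans hcV
  · intro z hz
    refine ⟨?_, hlip z hz⟩
    have h1 := hlip z hz (F^[m] x) (mem_closedBall_self (by positivity))
    rw [mem_closedBall] at hz ⊢
    rw [← dist_eq_norm, ← dist_eq_norm] at h1
    calc dist (F^[p] z) (F^[m] x) ≤ dist (F^[p] z) (F^[p] (F^[m] x)) +
          dist (F^[p] (F^[m] x)) (F^[m] x) := dist_triangle _ _ _
      _ ≤ 1 / 4 * (r / 4) + r / 8 := by
          have : 1 / 4 * dist z (F^[m] x) ≤ 1 / 4 * (r / 4) := by gcongr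
          linarith
      _ = 3 / 4 * (r / 4) := by ring

end Pool.Agent.Q77.Semi
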