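import Mathlib
import Pool.Agent.H790R3.RB.TSP
import Pool.Agent.H790R3.RB.TISO

/-! Homogeneous maps of `ℂ × ℂ`, the maps of the sphere defined by them, and small linear
perturbations. -/

set_option autoImplicit false

open Topology Filter Metric Set
open scoped OnePoint

namespace Pool.Agent.Q77.Semi

open Pool.Agent.H790R3.RB

/-- linear maps of `ℂ × ℂ` -/
abbrev LM : Type := (ℂ × ℂ) →L[ℂ] (ℂ × ℂ)

/-- nondegenerate homogeneous holomorphic maps -/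
structure Hm (F : ℂ × ℂ → ℂ × ℂ) : Prop where
  df : Differentiable ℂ F
  hom : ∃ D : ℕ, 1 ≤ D ∧ ∀ (a : ℂ) (p : ℂ × ℂ), F (a • p) = a ^ D • F p
  nd : ∀ p : ℂ × ℂ, p ≠ 0 → F p ≠ 0

/-- the map of the sphere -/
noncomputable def sf (F : ℂ × ℂ → ℂ × ℂ) (z : OnePoint ℂ) : OnePoint ℂ := pr (F (hc z))

theorem pr_smul {a : ℂ} (ha : a ≠ 0) {p : ℂ × ℂ} (hp : p ≠ 0) : pr (a • p) = pr p := by
  rw [SP.pr_eq_iff (smul_ne_zero ha hp) hp, cr_smul_left, cr_self, mul_zero]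

theorem hc_ne (z : OnePoint ℂ) : hc z ≠ 0 := (SP.pr_hc z).2

theorem pr_hc' (z : OnePoint ℂ) : pr (hc z) = z := (SP.pr_hc z).1

theorem sf_pr {F : ℂ × ℂ → ℂ × ℂ} (hF : Hm F) {p : ℂ × ℂ} (hp : p ≠ 0) :
    sf F (pr p) = pr (F p) := by
  unfold sf
  have h2 : cr (hc (pr p)) p = 0 := (SP.pr_eq_iff (hc_ne _) hp).1 (pr_hc' _)
  obtain ⟨a, ha, h3⟩ := (cr_eq_zero_iff (hc_ne _) hp).1 h2
  obtain ⟨D, -, hD⟩ := hF.hom
  rw [h3, hD, pr_smul (pow_ne_zero _ ha) (hF.nd p hp)]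

theorem Hm.comp {F G : ℂ × ℂ → ℂ × ℂ} (hG : Hm G) (hF : Hm F) : Hm (G ∘ F) where
  df := hG.df.comp hF.df
  hom := by
    obtain ⟨D, h1, h2⟩ := hF.hom
    obtain ⟨E, h3, h4⟩ := hG.hom
    refine ⟨D * E, Nat.mul_pos h1 h3, fun a p => ?_⟩
    simp only [Function.comp_apply]
    rw [h2, h4, pow_mul]
  nd p hp := hG.nd _ (hF.nd p hp)

theorem sf_comp {F G : ℂ × ℂ → ℂ × ℂ} (hG : Hm G) (hF : Hm F) (z : OnePoint ℂ) :
    sf (G ∘ F) z = sf G (sf F z) := by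
  have h : sf F z = pr (F (hc z)) := rfl
  rw [h, sf_pr hG (hF.nd _ (hc_ne z))]
  rfl

theorem sf_cont {F : ℂ × ℂ → ℂ × ℂ} (hF : Hm F) : Continuous (sf F) := by
  have hcF : Continuous F := hF.df.continuous
  rw [OnePoint.continuous_iff]
  constructor
  · rw [coclosedCompact_eq_cocompact, ← Metric.cobounded_eq_cocompact]
    have h0 : ((1, 0) : ℂ × ℂ) ≠ 0 := fun h => one_ne_zero (congrArg Prod.fst h)
    have h1 : Tendsto (fun z : ℂ => pr (F (1, z⁻¹))) (Bornology.cobounded ℂ)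
        (𝓝 (pr (F (1, 0)))) := by
      have h2 : ContinuousAt (fun w : ℂ => pr (F (1, w))) 0 :=
        ContinuousAt.comp (f := fun w : ℂ => F (1, w)) (g := pr) (x := (0 : ℂ))
          (SP.continuousAt_pr (hF.nd _ h0))
          ((hcF.comp (Continuous.prodMk_right 1)).continuousAt)
      exact Tendsto.comp (g := fun w : ℂ => pr (F (1, w))) h2.tendsto tendsto_inv₀_cobounded
    refine h1.congr' ?_
    filter_upwards [Bornology.eventually_ne_cobounded (0 : ℂ)] with z hz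
    have e1 : ((1, z⁻¹) : ℂ × ℂ) ≠ 0 := fun h => one_ne_zero (congrArg Prod.fst h)
    rw [← sf_pr hF e1]
    congr 1
    rw [SP.pr_ne (inv_ne_zero hz)]
    simp
  · rw [continuous_iff_continuousAt]
    intro z
    have h0 : ((z, 1) : ℂ × ℂ) ≠ 0 := fun h => one_ne_zero (congrArg Prod.snd h)
    exact ContinuousAt.comp (f := fun w : ℂ => F (w, 1)) (g := pr) (x := z)
      (SP.continuousAt_pr (hF.nd _ h0))
      ((hcF.comp (Continuous.prodMk_left 1)).continuousAt)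

/-! ### Linear maps -/

theorem Hm.lin {L : LM} (hL : ∀ p : ℂ × ℂ, p ≠ 0 → L p ≠ 0) : Hm L where
  df := L.differentiable
  hom := ⟨1, le_rfl, fun a p => by rw [pow_one, map_smul]⟩
  nd := hL

theorem one_ap (p : ℂ × ℂ) : (1 : LM) p = p := rfl

theorem near_nd {L : LM} (hL : ‖L - 1‖ < 1) (p : ℂ × ℂ) (hp : p ≠ 0) : L p ≠ 0 := by
  intro h
  have h1 : ‖(L - 1) p‖ ≤ ‖L - 1‖ * ‖p‖ := (L - 1).le_opNorm p
  have h2 : (L - 1) p = -p := by
    rw [sub_apply, h, one_ap, zero_sub]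
  rw [h2, norm_neg] at h1
  have h3 : 0 < ‖p‖ := norm_pos_iff.2 hp
  nlinarith

theorem Hm.near {L : LM} (hL : ‖L - 1‖ < 1) : Hm L := Hm.lin (near_nd hL)

/-- the shear `(u, v) ↦ (u + t v, v)` -/
noncomputable def sh1 (t : ℂ) : LM :=
  (ContinuousLinearMap.fst ℂ ℂ ℂ + t • ContinuousLinearMap.snd ℂ ℂ ℂ).prod
    (ContinuousLinearMap.snd ℂ ℂ ℂ)

/-- the shear `(u, v) ↦ (u, v + t u)` -/
noncomputable def sh2 (t : ℂ) : LM :=
  (ContinuousLinearMap.fst ℂ ℂ ℂ).prod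
    (ContinuousLinearMap.snd ℂ ℂ ℂ + t • ContinuousLinearMap.fst ℂ ℂ ℂ)

theorem sh1_apply (t : ℂ) (p : ℂ × ℂ) : sh1 t p = (p.1 + t * p.2, p.2) := rfl

theorem sh2_apply (t : ℂ) (p : ℂ × ℂ) : sh2 t p = (p.1, p.2 + t * p.1) := rfl

theorem sh1_norm (t : ℂ) : ‖sh1 t - 1‖ ≤ ‖t‖ := by
  refine ContinuousLinearMap.opNorm_le_bound _ (norm_nonneg _) fun p => ?_
  have h : (sh1 t - 1) p = (t * p.2, 0) := by
    rw [sub_apply, sh1_apply, one_ap]
    ext <;> simp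
  rw [h, Prod.norm_def]
  simp only [norm_mul, norm_zero]
  refine max_le ?_ (by positivity)
  gcongr
  exact norm_snd_le p

theorem sh2_norm (t : ℂ) : ‖sh2 t - 1‖ ≤ ‖t‖ := by
  refine ContinuousLinearMap.opNorm_le_bound _ (norm_nonneg _) fun p => ?_
  have h : (sh2 t - 1) p = (0, t * p.1) := by
    rw [sub_apply, sh2_apply, one_ap]
    ext <;> simp
  rw [h, Prod.norm_def]
  simp only [norm_mul, norm_zero]
  refine max_le (by positivity) ?_
  gcongr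
  exact norm_fst_le p

/-- small linear maps move a point to all points of a neighbourhood -/
theorem move {q : ℂ × ℂ} (hq : q ≠ 0) {δ : ℝ} (hδ : 0 < δ) :
    {y | ∃ K : LM, ‖K - 1‖ < δ ∧ pr (K q) = y} ∈ 𝓝 (pr q) := by
  by_cases h : q.2 = 0
  · have h1 : q.1 ≠ 0 := fun h1 => hq (Prod.ext h1 h)
    rw [SP.pr_zero h, OnePoint.nhds_infty_eq, mem_sup]
    constructor
    · rw [mem_map, coclosedCompact_eq_cocompact, ← Metric.cobounded_eq_cocompact]
      have h2 : ∀ᶠ z : ℂ in Bornology.cobounded ℂ, z ≠ 0 ∧ ‖z⁻¹‖ < δ := by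
        have h3 : Tendsto (fun z : ℂ => ‖z⁻¹‖) (Bornology.cobounded ℂ) (𝓝 0) := by
          have := (tendsto_inv₀_cobounded (α := ℂ)).norm
          simpa using this
        exact (Bornology.eventually_ne_cobounded (0 : ℂ)).and (h3.eventually (gt_mem_nhds hδ))
      filter_upwards [h2] with z hz
      refine ⟨sh2 z⁻¹, (sh2_norm _).trans_lt hz.2, ?_⟩
      rw [sh2_apply, SP.pr_ne]
      · simp only [h, zero_add, OnePoint.coe_eq_coe]
        have := hz.1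
        field_simp
      · simp only [h, zero_add]
        exact mul_ne_zero (inv_ne_zero hz.1) h1
    · rw [mem_pure]
      refine ⟨1, by simpa using hδ, ?_⟩
      rw [one_ap, SP.pr_zero h]
  · rw [SP.pr_ne h, OnePoint.nhds_coe_eq, mem_map]
    filter_upwards [ball_mem_nhds (q.1 / q.2) hδ] with z hz
    rw [mem_ball, dist_eq_norm] at hz
    refine ⟨sh1 (z - q.1 / q.2), (sh1_norm _).trans_lt hz, ?_⟩
    rw [sh1_apply, SP.pr_ne (by simpa using h)]
    simp only [OnePoint.coe_eq_coe]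
    field_simp
    ring

/-- one perturbed step -/
noncomputable def st (F : ℂ × ℂ → ℂ × ℂ) (L : LM) (z : OnePoint ℂ) : OnePoint ℂ :=
  pr (L (F (hc z)))

theorem st_eq (F : ℂ × ℂ → ℂ × ℂ) (L : LM) : st F L = sf (L ∘ F) := rfl

theorem st_open {F : ℂ × ℂ → ℂ × ℂ} (hF : Hm F) {η : ℝ} (hη1 : η ≤ 1) (z : OnePoint ℂ) :
    IsOpen {y | ∃ L : LM, ‖L - 1‖ < η ∧ st F L z = y} := by
  rw [isOpen_iff_mem_nhds]
  rintro y ⟨L, hL, rfl⟩
  set q := F (hc z) with hq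
  have hq0 : q ≠ 0 := hF.nd _ (hc_ne z)
  have hLq : L q ≠ 0 := near_nd (hL.trans_le hη1) q hq0
  have h1 := move hLq (δ := (η - ‖L - 1‖) / (‖L‖ + 1)) (div_pos (by linarith) (by positivity))
  refine mem_of_superset h1 ?_
  rintro y ⟨K, hK, rfl⟩
  refine ⟨K * L, ?_, ?_⟩
  · have e : K * L - 1 = (K - 1) * L + (L - 1) := by rw [sub_mul, one_mul]; abel
    rw [e]
    have h2 : ‖(K - 1) * L‖ ≤ ‖K - 1‖ * ‖L‖ := norm_mul_le _ _
    have h3 : ‖K - 1‖ * ‖L‖ < η - ‖L - 1‖ := by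
      rw [lt_div_iff₀ (by positivity)] at hK
      nlinarith [norm_nonneg (K - 1), norm_nonneg L]
    calc ‖(K - 1) * L + (L - 1)‖ ≤ ‖(K - 1) * L‖ + ‖L - 1‖ := norm_add_le _ _
      _ < η := by linarith
  · rfl

/-! ### Words -/

/-- the orbit of a point under a word of perturbed steps -/
noncomputable def run (F : ℂ × ℂ → ℂ × ℂ) (l : List LM) (z : OnePoint ℂ) : OnePoint ℂ :=
  l.foldl (fun z L => st F L z) z

/-- its lift -/
noncomputable def lft (F : ℂ × ℂ → ℂ × ℂ) (l : List LM) (p : ℂ × ℂ) : ℂ × ℂ :=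
  l.foldl (fun p L => L (F p)) p

theorem run_nil (F : ℂ × ℂ → ℂ × ℂ) (z : OnePoint ℂ) : run F [] z = z := rfl

theorem run_append (F : ℂ × ℂ → ℂ × ℂ) (l l' : List LM) (z : OnePoint ℂ) :
    run F (l ++ l') z = run F l' (run F l z) := by
  unfold run; rw [List.foldl_append]

theorem run_snoc (F : ℂ × ℂ → ℂ × ℂ) (l : List LM) (L : LM) (z : OnePoint ℂ) :
    run F (l ++ [L]) z = st F L (run F l z) := by
  rw [run_append]; rfl

theorem lft_append (F : ℂ × ℂ → ℂ × ℂ) (l l' : List LM) (p : ℂ × ℂ) :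
    lft F (l ++ l') p = lft F l' (lft F l p) := by
  unfold lft; rw [List.foldl_append]

theorem lft_snoc (F : ℂ × ℂ → ℂ × ℂ) (l : List LM) (L : LM) :
    lft F (l ++ [L]) = (L ∘ F) ∘ lft F l := by
  funext p
  rw [lft_append]; rfl

theorem lft_Hm {F : ℂ × ℂ → ℂ × ℂ} (hF : Hm F) (l : List LM) (hl : ∀ L ∈ l, ‖L - 1‖ < 1) :
    Hm (lft F l) := by
  induction l using List.reverseRecOn with
  | nil =>
    have : lft F [] = (id : ℂ × ℂ → ℂ × ℂ) := rfl
    rw [this]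
    exact ⟨differentiable_id, ⟨1, le_rfl, fun a p => by simp⟩, fun p hp => hp⟩
  | append_singleton l L ih =>
    rw [lft_snoc]
    have h1 := ih (fun K hK => hl K (List.mem_append_left _ hK))
    have h2 : ‖L - 1‖ < 1 := hl L (by simp)
    exact ((Hm.near h2).comp hF).comp h1

theorem run_lft {F : ℂ × ℂ → ℂ × ℂ} (hF : Hm F) (l : List LM) (hl : ∀ L ∈ l, ‖L - 1‖ < 1) :
    run F l = sf (lft F l) := by
  induction l using List.reverseRecOn with
  | nil =>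
    funext z
    exact (pr_hc' z).symm
  | append_singleton l L ih =>
    funext z
    have hl' : ∀ K ∈ l, ‖K - 1‖ < 1 := fun K hK => hl K (List.mem_append_left _ hK)
    have h2 : ‖L - 1‖ < 1 := hl L (by simp)
    rw [run_snoc, lft_snoc, sf_comp ((Hm.near h2).comp hF) (lft_Hm hF l hl'), ih hl', st_eq]

theorem run_cont {F : ℂ × ℂ → ℂ × ℂ} (hF : Hm F) (l : List LM) (hl : ∀ L ∈ l, ‖L - 1‖ < 1) :
    Continuous (run F l) := by
  rw [run_lft hF l hl]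
  exact sf_cont (lft_Hm hF l hl)

/-- the points which are reached by words of perturbed steps -/
def Tset (F : ℂ × ℂ → ℂ × ℂ) (η : ℝ) (x : OnePoint ℂ) : Set (OnePoint ℂ) :=
  {y | ∃ l : List LM, l ≠ [] ∧ (∀ L ∈ l, ‖L - 1‖ < η) ∧ run F l x = y}

theorem Tset_open {F : ℂ × ℂ → ℂ × ℂ} (hF : Hm F) {η : ℝ} (hη1 : η ≤ 1) (x : OnePoint ℂ) :
    IsOpen (Tset F η x) := by
  rw [isOpen_iff_mem_nhds]
  rintro y ⟨l, hl, hl2, rfl⟩
  obtain ⟨l', L, rfl⟩ := (List.eq_nil_or_concat' l).resolve_left hl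
  rw [run_snoc]
  have h1 := (st_open hF hη1 (run F l' x)).mem_nhds (show st F L (run F l' x) ∈ _ from
    ⟨L, hl2 L (by simp), rfl⟩)
  refine mem_of_superset h1 ?_
  rintro y ⟨K, hK, rfl⟩
  refine ⟨l' ++ [K], by simp, ?_, by rw [run_snoc]⟩
  intro M hM
  rw [List.mem_append, List.mem_singleton] at hM
  rcases hM with hM | rfl
  · exact hl2 M (List.mem_append_left _ hM)
  · exact hK

theorem Tset_step {F : ℂ × ℂ → ℂ × ℂ} {η : ℝ} {x y : OnePoint ℂ} (hy : y ∈ Tset F η x) {L : LM}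
    (hL : ‖L - 1‖ < η) : st F L y ∈ Tset F η x := by
  obtain ⟨l, hl, hl2, rfl⟩ := hy
  refine ⟨l ++ [L], by simp, ?_, by rw [run_snoc]⟩
  intro M hM
  rw [List.mem_append, List.mem_singleton] at hM
  rcases hM with hM | rfl
  · exact hl2 M hM
  · exact hL

theorem Tset_first {F : ℂ × ℂ → ℂ × ℂ} {η : ℝ} {x : OnePoint ℂ} {L : LM}
    (hL : ‖L - 1‖ < η) : st F L x ∈ Tset F η x :=
  ⟨[L], by simp, by simpa using hL, rfl⟩

theorem st_one (F : ℂ × ℂ → ℂ × ℂ) (z : OnePoint ℂ) : st F 1 z = sf F z := rfl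

end Pool.Agent.Q77.Semi
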