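import Mathlib
import Pool.Agent.Q77.Semi.Plane
import Pool.Agent.Q77.Semi.Sphere

/-! An open set of the sphere which is mapped into itself by all small perturbations of a map and
is not the whole sphere consists of points attracted by attracting cycles. -/

set_option autoImplicit false

open Topology Filter Metric Set
open scoped OnePoint

namespace Pool.Agent.Q77.Semi

open Pool.Agent.H790R3.RB

/-- attraction by a topologically attracting cycle, as in the frozen statement S05373 -/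
def Att (f : OnePoint ℂ → OnePoint ℂ) (c : OnePoint ℂ) : Prop :=
  ∃ z : OnePoint ℂ, ∃ n : ℕ, 0 < n ∧ f^[n] z = z ∧
    (∃ U ∈ nhds z, ∀ w ∈ U, Filter.Tendsto (fun k : ℕ => f^[n * k] w) Filter.atTop (nhds z)) ∧
    Filter.Tendsto (fun k : ℕ => f^[n * k] c) Filter.atTop (nhds z)

theorem att_of {f : OnePoint ℂ → OnePoint ℂ} (hf : Continuous f) {m p : ℕ}
    {B : Set (OnePoint ℂ)} {z₀ : OnePoint ℂ} (hp : 0 < p) (hB : IsOpen B) (hz : z₀ ∈ B)
    (hfix : f^[p] z₀ = z₀) (hlim : ∀ w ∈ B, Tendsto (fun k : ℕ => (f^[p])^[k] w) atTop (𝓝 z₀))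
    {x : OnePoint ℂ} (hx : f^[m] x ∈ B) : Att f x := by
  have hpk : ∀ k : ℕ, f^[p * k] z₀ = z₀ := by
    intro k
    rw [Function.iterate_mul]
    exact Function.iterate_fixed hfix k
  have hmj : m + m * (p - 1) = p * m := by
    obtain ⟨q, rfl⟩ : ∃ q, p = q + 1 := ⟨p - 1, by omega⟩
    simp only [Nat.add_sub_cancel]
    ring
  have key : ∀ w : OnePoint ℂ, f^[m] w ∈ B →
      Tendsto (fun k : ℕ => f^[p * k] w) atTop (𝓝 (f^[m * (p - 1)] z₀)) := by
    intro w hw
    have h1 := ((hf.iterate (m * (p - 1))).tendsto z₀).comp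
      ((hlim _ hw).comp (tendsto_sub_atTop_nat m))
    refine h1.congr' ?_
    filter_upwards [eventually_ge_atTop m] with k hk
    simp only [Function.comp_apply]
    rw [← Function.iterate_mul, ← Function.iterate_add_apply, ← Function.iterate_add_apply]
    congr 2
    obtain ⟨j, rfl⟩ := Nat.exists_eq_add_of_le hk
    rw [Nat.add_sub_cancel_left, mul_add]
    omega
  refine ⟨f^[m * (p - 1)] z₀, p, hp, ?_, ⟨{w | f^[m] w ∈ B}, ?_, fun w hw => key w hw⟩, key x hx⟩
  · rw [← Function.iterate_add_apply, add_comm, Function.iterate_add_apply, hfix]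
  · refine (hB.preimage (hf.iterate m)).mem_nhds ?_
    show f^[m] (f^[m * (p - 1)] z₀) ∈ B
    rw [← Function.iterate_add_apply, hmj, hpk]
    exact hz

/-- a neighbourhood of a compact set contains its images under small linear maps -/
theorem robust {K B : Set (OnePoint ℂ)} (hK : IsCompact K) (hB : IsOpen B) (hKB : K ⊆ B) :
    ∃ η : ℝ, 0 < η ∧ η ≤ 1 ∧ ∀ p : ℂ × ℂ, p ≠ 0 → pr p ∈ K → ∀ L : LM, ‖L - 1‖ < η →
      pr (L p) ∈ B := by
  set K' : Set (ℂ × ℂ) := sphere 0 1 ∩ pr ⁻¹' K with hK'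
  have hc : ContinuousOn pr (sphere (0 : ℂ × ℂ) 1) := by
    intro p hp
    refine (SP.continuousAt_pr ?_).continuousWithinAt
    rintro rfl
    simp at hp
  have hK'c : IsCompact K' :=
    (isCompact_sphere (0 : ℂ × ℂ) 1).of_isClosed_subset
      (hc.preimage_isClosed_of_isClosed isClosed_sphere hK.isClosed) inter_subset_left
  have h1 : ∀ᶠ L : LM in 𝓝 1, ∀ p ∈ K', pr (L p) ∈ B := by
    refine hK'c.eventually_forall_of_forall_eventually (P := fun (L : LM) p => pr (L p) ∈ B) ?_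
    rintro p ⟨hp1, hp2⟩
    have hp0 : p ≠ 0 := by
      rintro rfl
      simp at hp1
    have h2 : ContinuousAt (fun q : LM × (ℂ × ℂ) => q.1 q.2) (1, p) :=
      (isBoundedBilinearMap_apply (𝕜 := ℂ) (E := ℂ × ℂ) (F := ℂ × ℂ)).continuous.continuousAt
    have h3 : ContinuousAt (fun q : LM × (ℂ × ℂ) => pr (q.1 q.2)) (1, p) :=
      ContinuousAt.comp (g := pr) (f := fun q : LM × (ℂ × ℂ) => q.1 q.2)
        (SP.continuousAt_pr (by simpa using hp0)) h2
    exact h3 (hB.mem_nhds (hKB (by simpa using hp2)))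
  obtain ⟨η, hη, h2⟩ := Metric.eventually_nhds_iff.1 h1
  refine ⟨min η 1, lt_min hη one_pos, min_le_right _ _, ?_⟩
  intro p hp hpK L hL
  have hL1 : ‖L - 1‖ < 1 := hL.trans_le (min_le_right _ _)
  have hn : (‖p‖⁻¹ : ℂ) ≠ 0 := by
    simpa using hp
  have h3 := h2 (y := L) (by rw [dist_eq_norm]; exact hL.trans_le (min_le_left _ _))
    ((‖p‖⁻¹ : ℂ) • p) ⟨by
      rw [mem_sphere_zero_iff_norm, norm_smul, norm_inv, Complex.norm_real, norm_norm,
        inv_mul_cancel₀ (norm_ne_zero_iff.2 hp)], by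
      show pr _ ∈ K
      rw [pr_smul hn hp]; exact hpK⟩
  rw [map_smul, pr_smul hn (near_nd hL1 p hp)] at h3
  exact h3

/-- linear coordinates in which a given vector is `(1, 0)` -/
theorem coords {q : ℂ × ℂ} (hq : q ≠ 0) :
    ∃ Λ : (ℂ × ℂ) ≃L[ℂ] (ℂ × ℂ), Λ q = (1, 0) := by
  obtain ⟨e, he⟩ := ISO.exists_cr_ne hq
  refine ⟨(LinearEquiv.toContinuousLinearEquiv
    { toFun := fun p => (cr e p / cr e q, cr p q / cr e q)
      map_add' := fun p p' => by
        ext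
        · simp only [ISO.cr_add_right, Prod.fst_add]; ring
        · simp only [ISO.cr_add_left, Prod.snd_add]; ring
      map_smul' := fun a p => by
        ext
        · simp only [cr_smul_right, Prod.smul_fst, RingHom.id_apply, smul_eq_mul]; ring
        · simp only [cr_smul_left, Prod.smul_snd, RingHom.id_apply, smul_eq_mul]; ring
      invFun := fun r => r.2 • e + r.1 • q
      left_inv := fun p => (ISO.basis he p).symm
      right_inv := fun r => by
        have h1 : cr e (r.2 • e + r.1 • q) = r.1 * cr e q := by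
          rw [ISO.cr_add_right, cr_smul_right, cr_smul_right, cr_self]; ring
        have h2 : cr (r.2 • e + r.1 • q) q = r.2 * cr e q := by
          rw [ISO.cr_add_left, cr_smul_left, cr_smul_left, cr_self]; ring
        ext
        · simp only [h1]; field_simp
        · simp only [h2]; field_simp }), ?_⟩
  show (cr e q / cr e q, cr q q / cr e q) = (1, 0)
  rw [div_self he, cr_self, zero_div]

theorem equiv_Hm (Λ : (ℂ × ℂ) ≃L[ℂ] (ℂ × ℂ)) : Hm Λ where
  df := Λ.differentiable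
  hom := ⟨1, le_rfl, fun a p => by rw [pow_one, map_smul]⟩
  nd p hp := by simpa using hp

theorem st_pr {F : ℂ × ℂ → ℂ × ℂ} (hF : Hm F) {L : LM} (hL : ‖L - 1‖ < 1) {p : ℂ × ℂ}
    (hp : p ≠ 0) : st F L (pr p) = pr (L (F p)) := by
  rw [st_eq, sf_pr ((Hm.near hL).comp hF) hp]; rfl

theorem pt_ne (z : ℂ) : ((z, 1) : ℂ × ℂ) ≠ 0 := fun h => one_ne_zero (congrArg Prod.snd h)

/-- **Trapping sets are attracted.** -/
theorem eh {F : ℂ × ℂ → ℂ × ℂ} (hF : Hm F) {W : Set (OnePoint ℂ)} (hW : IsOpen W) {η : ℝ}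
    (hη : 0 < η) (hη1 : η ≤ 1) (hrob : ∀ z ∈ W, ∀ L : LM, ‖L - 1‖ < η → st F L z ∈ W)
    (hne : W ≠ univ) {x : OnePoint ℂ} (hx : x ∈ W) :
    ∃ (m p : ℕ) (B : Set (OnePoint ℂ)) (z₀ : OnePoint ℂ), 0 < p ∧ IsOpen B ∧ z₀ ∈ B ∧ B ≠ univ ∧
      (sf F)^[m] x ∈ B ∧ (sf F)^[p] z₀ = z₀ ∧
      (∀ w ∈ B, Tendsto (fun k : ℕ => ((sf F)^[p])^[k] w) atTop (𝓝 z₀)) ∧
      ∃ K : Set (OnePoint ℂ), IsCompact K ∧ K ⊆ B ∧ ∀ z ∈ B, (sf F)^[p] z ∈ K := by
  obtain ⟨y, hy⟩ : ∃ y, y ∉ W := by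
    by_contra h
    push Not at h
    exact hne (eq_univ_of_forall h)
  obtain ⟨Λ, hΛ⟩ := coords (hc_ne y)
  have hΛi : Λ.symm (1, 0) = hc y := by rw [← hΛ]; simp
  set φ : ℂ → OnePoint ℂ := fun z => pr (Λ.symm (z, 1)) with hφ
  have hne0 : ∀ z : ℂ, Λ.symm (z, 1) ≠ 0 := fun z => (equiv_Hm Λ.symm).nd _ (pt_ne z)
  have hφc : Continuous φ := by
    rw [continuous_iff_continuousAt]
    intro z
    exact ContinuousAt.comp (g := pr) (f := fun z : ℂ => Λ.symm (z, 1))
      (SP.continuousAt_pr (hne0 z)) (by fun_prop)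
  have hφΛ : ∀ w : ℂ, sf Λ (φ w) = (w : OnePoint ℂ) := by
    intro w
    rw [hφ]
    simp only
    rw [sf_pr (equiv_Hm Λ) (hne0 w)]
    simp only [ContinuousLinearEquiv.apply_symm_apply]
    rw [SP.pr_ne (by simp)]
    simp
  have hΛφ : ∀ z : OnePoint ℂ, sf Λ.symm (sf Λ z) = z := by
    intro z
    rw [← sf_comp (equiv_Hm Λ.symm) (equiv_Hm Λ)]
    have : (Λ.symm ∘ Λ : ℂ × ℂ → ℂ × ℂ) = id := by funext p; simp
    rw [this]
    exact pr_hc' z
  have hφsf : ∀ w : ℂ, sf Λ.symm (w : OnePoint ℂ) = φ w := fun w => rfl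
  -- the constant
  set η' : ℝ := η / (‖(Λ.symm : LM)‖ * ‖(Λ : LM)‖ + 1) with hη'
  have hη'0 : 0 < η' := by positivity
  have hKL : ∀ K : LM, ‖K - 1‖ < η' →
      ‖((Λ.symm : LM) * K * (Λ : LM)) - 1‖ < η := by
    intro K hK
    have e : ((Λ.symm : LM) * K * (Λ : LM)) - 1 = (Λ.symm : LM) * (K - 1) * (Λ : LM) := by
      have e1 : (Λ.symm : LM) * (Λ : LM) = 1 := by
        ext <;> simp
      rw [mul_sub, sub_mul, mul_one, e1]
    rw [e]
    calc ‖(Λ.symm : LM) * (K - 1) * (Λ : LM)‖ ≤ ‖(Λ.symm : LM) * (K - 1)‖ * ‖(Λ : LM)‖ :=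
          norm_mul_le _ _
      _ ≤ ‖(Λ.symm : LM)‖ * ‖K - 1‖ * ‖(Λ : LM)‖ := by
          gcongr; exact norm_mul_le _ _
      _ = ‖K - 1‖ * (‖(Λ.symm : LM)‖ * ‖(Λ : LM)‖) := by ring
      _ ≤ ‖K - 1‖ * (‖(Λ.symm : LM)‖ * ‖(Λ : LM)‖ + 1) := by
          gcongr; linarith
      _ < η := by rwa [hη', lt_div_iff₀ (by positivity)] at hK
  set V : Set ℂ := φ ⁻¹' W with hV
  have hVo : IsOpen V := hW.preimage hφc
  set Gh : ℂ → ℂ × ℂ := fun z => Λ (F (Λ.symm (z, 1))) with hGh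
  have hGh0 : ∀ z, Gh z ≠ 0 := fun z => (equiv_Hm Λ).nd _ (hF.nd _ (hne0 z))
  have hGd : Differentiable ℂ Gh := by
    have h1 : Differentiable ℂ (fun z : ℂ => Λ.symm (z, 1)) :=
      Λ.symm.differentiable.comp (differentiable_id.prodMk (differentiable_const _))
    exact Λ.differentiable.comp (hF.df.comp h1)
  have claim1 : ∀ z ∈ V, ∀ K : LM, ‖K - 1‖ < η' → pr (Λ.symm (K (Gh z))) ∈ W := by
    intro z hz K hK
    have h1 := hrob (φ z) hz _ (hKL K hK)
    rw [hφ] at h1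
    simp only at h1
    rw [st_pr hF ((hKL K hK).trans_le hη1) (hne0 z)] at h1
    exact h1
  have claim2 : ∀ z ∈ V, ∀ s : ℂ, ‖s‖ < η' → (Gh z).2 + s * (Gh z).1 ≠ 0 := by
    intro z hz s hs h0
    have h1 := claim1 z hz (sh2 s) ((sh2_norm s).trans_lt hs)
    rw [sh2_apply, h0] at h1
    have hu : (Gh z).1 ≠ 0 := by
      intro hu
      rw [hu, mul_zero, add_zero] at h0
      exact hGh0 z (Prod.ext hu h0)
    have e : (((Gh z).1, 0) : ℂ × ℂ) = (Gh z).1 • ((1, 0) : ℂ × ℂ) := by simp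
    rw [e, map_smul, hΛi, pr_smul hu (hc_ne y), pr_hc'] at h1
    exact hy h1
  have claim2' : ∀ z ∈ V, (Gh z).2 ≠ 0 := by
    intro z hz
    have h := claim2 z hz 0 (by simpa using hη'0)
    simpa using h
  set g : ℂ → ℂ := fun z => (Gh z).1 / (Gh z).2 with hg
  have hgb : ∀ z ∈ V, ‖g z‖ ≤ 1 / η' := by
    intro z hz
    have h2 := claim2' z hz
    rw [hg]
    simp only
    rw [norm_div, div_le_div_iff₀ (norm_pos_iff.2 h2) hη'0, one_mul]
    by_contra hcon
    push Not at hcon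
    have hu : (Gh z).1 ≠ 0 := by
      intro hu
      rw [hu, norm_zero, zero_mul] at hcon
      exact absurd hcon (not_lt.2 (norm_nonneg _))
    refine claim2 z hz (-((Gh z).2 / (Gh z).1)) ?_ ?_
    · rw [norm_neg, norm_div, div_lt_iff₀ (norm_pos_iff.2 hu), mul_comm]
      exact hcon
    · field_simp
      ring
  have hφg : ∀ z ∈ V, ∀ t : ℂ, pr (Λ.symm ((Gh z).1 + t * (Gh z).2, (Gh z).2)) = φ (g z + t) := by
    intro z hz t
    have h2 := claim2' z hz
    have e : (((Gh z).1 + t * (Gh z).2, (Gh z).2) : ℂ × ℂ) = (Gh z).2 • ((g z + t, 1) : ℂ × ℂ) := by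
      ext
      · simp only [hg, Prod.smul_fst, smul_eq_mul]; field_simp
      · simp
    rw [e, map_smul, pr_smul h2 (hne0 _)]
  have hgball : ∀ z ∈ V, ball (g z) η' ⊆ V := by
    intro z hz w hw
    rw [mem_ball, dist_eq_norm] at hw
    have h1 := claim1 z hz (sh1 (w - g z)) ((sh1_norm _).trans_lt hw)
    rw [sh1_apply, hφg z hz, add_sub_cancel] at h1
    exact h1
  have hconj : ∀ z ∈ V, φ (g z) = sf F (φ z) := by
    intro z hz
    have h1 := hφg z hz 0
    rw [zero_mul, add_zero, add_zero] at h1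
    rw [← h1, hφ]
    simp only
    rw [sf_pr hF (hne0 z)]
    have : Λ.symm ((Gh z).1, (Gh z).2) = F (Λ.symm (z, 1)) := by
      rw [Prod.mk.eta, hGh]; simp
    rw [this]
  -- the bounded part
  set M : ℝ := 1 / η' + η' with hM
  have hM0 : 0 < M := by positivity
  set V' : Set ℂ := V ∩ ball 0 M with hV'
  have hV'o : IsOpen V' := hVo.inter isOpen_ball
  have hV'ball : ∀ z ∈ V, ball (g z) η' ⊆ V' := by
    intro z hz w hw
    refine ⟨hgball z hz hw, ?_⟩
    rw [mem_ball_zero_iff]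
    rw [mem_ball, dist_eq_norm] at hw
    calc ‖w‖ = ‖(w - g z) + g z‖ := by rw [sub_add_cancel]
      _ ≤ ‖w - g z‖ + ‖g z‖ := norm_add_le _ _
      _ < M := by have := hgb z hz; rw [hM]; linarith
  have hgd : DifferentiableOn ℂ g V' := by
    intro z hz
    have h2 := claim2' z hz.1
    have h3 : DifferentiableAt ℂ (fun z => (Gh z).1) z := (hGd z).fst
    have h4 : DifferentiableAt ℂ (fun z => (Gh z).2) z := (hGd z).snd
    exact (h3.div h4 h2).differentiableWithinAt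
  have hiter : ∀ (k : ℕ) (z : ℂ), z ∈ V' → g^[k] z ∈ V' ∧ φ (g^[k] z) = (sf F)^[k] (φ z) := by
    intro k
    induction k with
    | zero => intro z hz; exact ⟨hz, rfl⟩
    | succ k ih =>
      intro z hz
      obtain ⟨h1, h2⟩ := ih z hz
      rw [Function.iterate_succ_apply', Function.iterate_succ_apply', ← h2]
      exact ⟨hV'ball _ h1.1 (mem_ball_self hη'0), hconj _ h1.1⟩
  -- the starting point
  obtain ⟨a, haV, hax⟩ : ∃ a : ℂ, a ∈ V ∧ φ a = x := by
    have h1 : (Λ (hc x)).2 ≠ 0 := by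
      intro h0
      apply hy
      have e : Λ (hc x) = (Λ (hc x)).1 • ((1, 0) : ℂ × ℂ) := by
        ext <;> simp [h0]
      have h3 : hc x = (Λ (hc x)).1 • hc y := by
        have := congrArg Λ.symm e
        rw [map_smul, hΛi] at this
        simpa using this
      have h4 : (Λ (hc x)).1 ≠ 0 := by
        intro h4
        rw [h4, zero_smul] at h3
        exact hc_ne x h3
      have h5 : x = y := by
        rw [← pr_hc' x, h3, pr_smul h4 (hc_ne y), pr_hc']
      rw [← h5]; exact hx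
    refine ⟨(Λ (hc x)).1 / (Λ (hc x)).2, ?_⟩
    have e : φ ((Λ (hc x)).1 / (Λ (hc x)).2) = x := by
      rw [hφ]
      simp only
      have e1 : Λ (hc x) = (Λ (hc x)).2 • (((Λ (hc x)).1 / (Λ (hc x)).2, 1) : ℂ × ℂ) := by
        ext
        · simp only [Prod.smul_fst, smul_eq_mul]; field_simp
        · simp
      have e2 : hc x = (Λ (hc x)).2 • Λ.symm (((Λ (hc x)).1 / (Λ (hc x)).2, 1) : ℂ × ℂ) := by
        rw [← map_smul, ← e1]; simp
      have e3 := pr_smul h1 (hne0 ((Λ (hc x)).1 / (Λ (hc x)).2))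
      rw [← e3, ← e2, pr_hc']
    refine ⟨?_, e⟩
    show φ _ ∈ W
    rw [e]; exact hx
  obtain ⟨m, p, ρ, hp, hρ, hsub, hcon⟩ := plane hV'o hgd hη'0 hM0
    (fun z hz => (mem_ball_zero_iff.1 hz.2).le) (fun z hz => hV'ball z hz.1)
    (hV'ball a haV (mem_ball_self hη'0))
  set c := g^[m] (g a) with hcd
  have hga : g a ∈ V' := hV'ball a haV (mem_ball_self hη'0)
  set B : Set (OnePoint ℂ) := φ '' ball c ρ with hB
  have hBeq : B = (sf Λ) ⁻¹' ((fun z : ℂ => (z : OnePoint ℂ)) '' ball c ρ) := by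
    ext z
    constructor
    · rintro ⟨w, hw, rfl⟩
      exact ⟨w, hw, (hφΛ w).symm⟩
    · rintro ⟨w, hw, hwz⟩
      refine ⟨w, hw, ?_⟩
      rw [← hφsf w, ← hΛφ z]
      congr 1
  have hBo : IsOpen B := by
    rw [hBeq]
    exact (OnePoint.isOpenEmbedding_coe.isOpenMap _ isOpen_ball).preimage (sf_cont (equiv_Hm Λ))
  have hBW : B ⊆ W := by
    rintro z ⟨w, hw, rfl⟩
    exact (hsub (ball_subset_closedBall hw)).1
  have hBp : ∀ w ∈ closedBall c ρ, (sf F)^[p] (φ w) = φ (g^[p] w) := fun w hw =>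
    ((hiter p w (hsub hw)).2).symm
  -- the fixed point
  have hmaps : MapsTo (g^[p]) (closedBall c ρ) (closedBall c ρ) := fun w hw =>
    closedBall_subset_closedBall (by linarith) (hcon w hw).1
  have hctr : ContractingWith (1 / 4 : NNReal) (hmaps.restrict (g^[p]) _ _) := by
    refine ⟨by norm_num [← NNReal.coe_lt_coe], ?_⟩
    refine LipschitzWith.of_dist_le_mul ?_
    rintro ⟨u, hu⟩ ⟨v, hv⟩
    have h1 := (hcon u hu).2 v hv
    rw [← dist_eq_norm, ← dist_eq_norm] at h1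
    show dist (g^[p] u) (g^[p] v) ≤ ((1 / 4 : NNReal) : ℝ) * dist u v
    have e : ((1 / 4 : NNReal) : ℝ) = 1 / 4 := by norm_num
    rw [e]; exact h1
  have hfp : ∀ w ∈ closedBall c ρ, ∃ z' ∈ closedBall c ρ, Function.IsFixedPt (g^[p]) z' ∧
      Tendsto (fun n : ℕ => (g^[p])^[n] w) atTop (𝓝 z') := by
    intro w hw
    obtain ⟨z', h1, h2, h3, -⟩ := ContractingWith.exists_fixedPoint' isClosed_closedBall.isComplete
      hmaps hctr hw (edist_ne_top _ _)
    exact ⟨z', h1, h2, h3⟩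
  obtain ⟨z', hz'1, hz'2, -⟩ := hfp c (mem_closedBall_self hρ.le)
  have huniq : ∀ w ∈ closedBall c ρ, Function.IsFixedPt (g^[p]) w → w = z' := by
    intro w hw hfw
    have h1 := (hcon w hw).2 z' hz'1
    rw [hfw.eq, hz'2.eq] at h1
    have h2 : ‖w - z'‖ ≤ 0 := by linarith [norm_nonneg (w - z')]
    exact sub_eq_zero.1 (norm_le_zero_iff.1 h2)
  have hz'B : z' ∈ ball c ρ := by
    have h1 := (hcon z' hz'1).1
    rw [hz'2.eq] at h1
    exact closedBall_subset_ball (by linarith) h1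
  refine ⟨m + 1, p, B, φ z', hp, hBo, ⟨z', hz'B, rfl⟩, fun h => hy (hBW (h ▸ mem_univ y)), ?_, ?_,
    ?_, φ '' closedBall c (3 / 4 * ρ), ?_, ?_, ?_⟩
  · rw [Function.iterate_succ_apply, ← hax, ← hconj a haV, ← (hiter m (g a) hga).2]
    exact ⟨c, mem_ball_self hρ, rfl⟩
  · rw [hBp z' hz'1, hz'2.eq]
  · rintro _ ⟨w, hw, rfl⟩
    have hw' := ball_subset_closedBall hw
    obtain ⟨z'', h1, h2, h3⟩ := hfp w hw'
    rw [huniq z'' h1 h2] at h3
    have h4 : ∀ k : ℕ, (g^[p])^[k] w ∈ closedBall c ρ ∧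
        ((sf F)^[p])^[k] (φ w) = φ ((g^[p])^[k] w) := by
      intro k
      induction k with
      | zero => exact ⟨hw', rfl⟩
      | succ k ih =>
        rw [Function.iterate_succ_apply', Function.iterate_succ_apply', ih.2]
        exact ⟨hmaps ih.1, hBp _ ih.1⟩
    have h5 := (hφc.tendsto z').comp h3
    refine h5.congr fun k => ?_
    exact ((h4 k).2).symm
  · exact (isCompact_closedBall _ _).image hφc
  · rintro _ ⟨w, hw, rfl⟩
    exact ⟨w, closedBall_subset_ball (by linarith) hw, rfl⟩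
  · rintro _ ⟨w, hw, rfl⟩
    rw [hBp w (ball_subset_closedBall hw)]
    exact ⟨_, (hcon w (ball_subset_closedBall hw)).1, rfl⟩

end Pool.Agent.Q77.Semi
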