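import Mathlib
import Pool.Agent.Q77.Semi.Trap
import Pool.Agent.Q77.Semi.Comb

/-! Small perturbations of a map with a trap have a hyperbolic composition. -/

set_option autoImplicit false

open Topology Filter Metric Set
open scoped OnePoint

namespace Pool.Agent.Q77.Semi

open Pool.Agent.H790R3.RB

/-- local injectivity -/
def LI (f : OnePoint ℂ → OnePoint ℂ) (x : OnePoint ℂ) : Prop := ∃ U ∈ nhds x, Set.InjOn f U

/-- finitely many critical values -/
def FinCV (f : OnePoint ℂ → OnePoint ℂ) : Prop :=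
  ∃ V : Finset (OnePoint ℂ), ∀ x, ¬ LI f x → f x ∈ V

theorem LI.comp {f h : OnePoint ℂ → OnePoint ℂ} (hf : Continuous f) {x : OnePoint ℂ}
    (h1 : LI f x) (h2 : LI h (f x)) : LI (h ∘ f) x := by
  obtain ⟨U, hU, hUi⟩ := h1
  obtain ⟨U', hU', hUi'⟩ := h2
  refine ⟨U ∩ f ⁻¹' U', inter_mem hU (hf.continuousAt hU'), ?_⟩
  intro a ha b hb hab
  exact hUi ha.1 hb.1 (hUi' ha.2 hb.2 hab)

theorem FinCV.comp {f h : OnePoint ℂ → OnePoint ℂ} (hf : Continuous f) (h1 : FinCV f)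
    (h2 : FinCV h) : FinCV (h ∘ f) := by
  classical
  obtain ⟨V, hV⟩ := h1
  obtain ⟨V', hV'⟩ := h2
  refine ⟨V' ∪ V.image h, fun x hx => ?_⟩
  rw [Finset.mem_union]
  by_cases h3 : LI f x
  · left
    exact hV' (f x) fun h4 => hx (h3.comp hf h4)
  · right
    exact Finset.mem_image_of_mem _ (hV x h3)

theorem LI_lin {L : LM} (hL : ‖L - 1‖ < 1) (x : OnePoint ℂ) : LI (sf L) x := by
  refine ⟨univ, univ_mem, ?_⟩
  intro a _ b _ hab
  have h1 : pr (L (hc a)) = pr (L (hc b)) := hab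
  rw [SP.pr_eq_iff (near_nd hL _ (hc_ne a)) (near_nd hL _ (hc_ne b)),
    cr_eq_zero_iff (near_nd hL _ (hc_ne a)) (near_nd hL _ (hc_ne b))] at h1
  obtain ⟨s, hs, h2⟩ := h1
  have h3 : hc a = s • hc b := by
    by_contra hcon
    have h4 : hc a - s • hc b ≠ 0 := sub_ne_zero.2 hcon
    apply near_nd hL _ h4
    rw [map_sub, map_smul, h2, sub_self]
  rw [← pr_hc' a, h3, pr_smul hs (hc_ne b), pr_hc']

theorem FinCV_st {F : ℂ × ℂ → ℂ × ℂ} (hF : Hm F) (hcv : FinCV (sf F)) {L : LM}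
    (hL : ‖L - 1‖ < 1) : FinCV (st F L) := by
  have h1 : st F L = sf L ∘ sf F := by
    funext z
    rw [st_eq, sf_comp (Hm.near hL) hF]; rfl
  rw [h1]
  exact hcv.comp (sf_cont hF) ⟨∅, fun x hx => absurd (LI_lin hL x) hx⟩

theorem FinCV_run {F : ℂ × ℂ → ℂ × ℂ} (hF : Hm F) (hcv : FinCV (sf F)) (l : List LM)
    (hl : ∀ L ∈ l, ‖L - 1‖ < 1) : FinCV (run F l) := by
  induction l using List.reverseRecOn with
  | nil => exact ⟨∅, fun x hx => absurd ⟨univ, univ_mem, fun a _ b _ hab => hab⟩ hx⟩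
  | append_singleton l L ih =>
    have hl' : ∀ K ∈ l, ‖K - 1‖ < 1 := fun K hK => hl K (List.mem_append_left _ hK)
    have h1 : run F (l ++ [L]) = st F L ∘ run F l := by funext z; rw [run_snoc]; rfl
    rw [h1]
    exact (ih hl').comp (run_cont hF l hl') (FinCV_st hF hcv (hl L (by simp)))

theorem stage {J : ℕ} {g : Fin J → OnePoint ℂ → OnePoint ℂ} (hg : ∀ j, Continuous (g j))
    (w : List (Fin J)) (c : OnePoint ℂ) (hc : ¬ LI (rn g w) c) :
    ∃ (a b : List (Fin J)) (j : Fin J), w = a ++ j :: b ∧ ¬ LI (g j) (rn g a c) := by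
  induction w generalizing c with
  | nil => exact absurd ⟨univ, univ_mem, fun a _ b _ hab => hab⟩ hc
  | cons j w ih =>
    by_cases h1 : LI (g j) c
    · have h2 : ¬ LI (rn g w) (g j c) := fun h2 => hc (h1.comp (hg j) h2)
      obtain ⟨a, b, i, h3, h4⟩ := ih (g j c) h2
      exact ⟨j :: a, b, i, by rw [h3]; rfl, h4⟩
    · exact ⟨[], w, j, rfl, h1⟩

/-- a perturbation of the last letter -/
theorem last_letter {L₀ : LM} {η : ℝ} (h : ‖L₀ - 1‖ < η) : ∃ δ : ℝ, 0 < δ ∧ δ ≤ 1 ∧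
    ∀ L : LM, ‖L - 1‖ < δ → ‖L * L₀ - 1‖ < η := by
  refine ⟨min ((η - ‖L₀ - 1‖) / (‖L₀‖ + 1)) 1, lt_min (div_pos (by linarith) (by positivity))
    one_pos, min_le_right _ _, fun L hL => ?_⟩
  have hK := hL.trans_le (min_le_left _ _)
  have e : L * L₀ - 1 = (L - 1) * L₀ + (L₀ - 1) := by rw [sub_mul, one_mul]; abel
  rw [e]
  have h2 : ‖(L - 1) * L₀‖ ≤ ‖L - 1‖ * ‖L₀‖ := norm_mul_le _ _
  have h3 : ‖L - 1‖ * ‖L₀‖ < η - ‖L₀ - 1‖ := by
    rw [lt_div_iff₀ (by positivity)] at hK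
    nlinarith [norm_nonneg (L - 1), norm_nonneg L₀]
  calc ‖(L - 1) * L₀ + (L₀ - 1)‖ ≤ ‖(L - 1) * L₀‖ + ‖L₀ - 1‖ := norm_add_le _ _
    _ < η := by linarith

theorem lft_st {F : ℂ × ℂ → ℂ × ℂ} (hF : Hm F) (l : List LM) (hl : ∀ L ∈ l, ‖L - 1‖ < 1)
    (L₀ L : LM) (hL : ‖L * L₀ - 1‖ < 1) (z : OnePoint ℂ) :
    st (lft F (l ++ [L₀])) L z = st F (L * L₀) (run F l z) := by
  rw [run_lft hF l hl]
  show pr (L (lft F (l ++ [L₀]) (hc z))) = st F (L * L₀) (pr (lft F l (hc z)))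
  rw [st_pr hF hL ((lft_Hm hF l hl).nd _ (hc_ne z)), lft_snoc]
  rfl

theorem run_mem {F : ℂ × ℂ → ℂ × ℂ} {W : Set (OnePoint ℂ)} {η : ℝ}
    (hrob : ∀ z ∈ W, ∀ L : LM, ‖L - 1‖ < η → st F L z ∈ W) (l : List LM)
    (hl : ∀ L ∈ l, ‖L - 1‖ < η) {z : OnePoint ℂ} (hz : z ∈ W) : run F l z ∈ W := by
  induction l using List.reverseRecOn with
  | nil => exact hz
  | append_singleton l L ih =>
    rw [run_snoc]
    exact hrob _ (ih fun K hK => hl K (List.mem_append_left _ hK)) L (hl L (by simp))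

/-- **Core theorem.** A map with a robust trap: some composition of small perturbations has all its
critical points attracted. -/
theorem core {F : ℂ × ℂ → ℂ × ℂ} (hF : Hm F) (hcv : FinCV (sf F)) {W₀ : Set (OnePoint ℂ)}
    (hWo : IsOpen W₀) (hWn : W₀.Nonempty) (hWu : W₀ ≠ univ) {η : ℝ} (hη : 0 < η) (hη1 : η ≤ 1)
    (hrob : ∀ z ∈ W₀, ∀ L : LM, ‖L - 1‖ < η → st F L z ∈ W₀) :
    ∃ l : List LM, l ≠ [] ∧ (∀ L ∈ l, ‖L - 1‖ < η) ∧
      ∀ c, ¬ LI (run F l) c → Att (run F l) c := by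
  classical
  -- the trapping set
  set C : Set (OnePoint ℂ) := {x | Disjoint (Tset F η x) W₀} with hC
  set T : Set (OnePoint ℂ) := ⋃ x ∈ C, Tset F η x with hT
  have hTo : IsOpen T := isOpen_biUnion fun x _ => Tset_open hF hη1 x
  have hTd : Disjoint T W₀ := by
    rw [hT, Set.disjoint_iUnion₂_left]
    intro x hx
    exact hx
  set W : Set (OnePoint ℂ) := W₀ ∪ T with hW
  have hWopen : IsOpen W := hWo.union hTo
  have hWrob : ∀ z ∈ W, ∀ L : LM, ‖L - 1‖ < η → st F L z ∈ W := by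
    rintro z (hz | hz) L hL
    · exact Or.inl (hrob z hz L hL)
    · right
      rw [hT, mem_iUnion₂] at hz ⊢
      obtain ⟨x, hx, hz⟩ := hz
      exact ⟨x, hx, Tset_step hz hL⟩
  have hWne : W ≠ univ := by
    intro h
    have h1 : W₀ᶜ = T := by
      ext z
      constructor
      · intro hz
        have : z ∈ W := by rw [h]; trivial
        exact this.resolve_left hz
      · intro hz hz'
        exact Set.disjoint_left.1 hTd hz hz'
    have h2 : IsClopen W₀ := ⟨by rw [← isOpen_compl_iff, h1]; exact hTo, hWo⟩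
    rcases isClopen_iff.1 h2 with h3 | h3
    · rw [h3] at hWn
      exact Set.not_nonempty_empty hWn
    · exact hWu h3
  -- every point is steered into it
  have hsteer : ∀ x, ∃ l : List LM, l ≠ [] ∧ (∀ L ∈ l, ‖L - 1‖ < η) ∧ run F l x ∈ W := by
    intro x
    by_cases hx : x ∈ C
    · refine ⟨[1], by simp, by simpa using hη, Or.inr ?_⟩
      rw [hT, mem_iUnion₂]
      exact ⟨x, hx, Tset_first (by simpa using hη)⟩
    · rw [hC, mem_ofPred_eq, Set.not_disjoint_iff] at hx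
      obtain ⟨y, ⟨l, h1, h2, h3⟩, hy⟩ := hx
      exact ⟨l, h1, h2, Or.inl (h3 ▸ hy)⟩
  choose w hw1 hw2 hw3 using hsteer
  have hlt1 : ∀ x, ∀ L ∈ w x, ‖L - 1‖ < 1 := fun x L hL => (hw2 x L hL).trans_le hη1
  obtain ⟨t, -, ht⟩ := (isCompact_univ (X := OnePoint ℂ)).elim_nhds_subcover
    (fun x => {z | run F (w x) z ∈ W})
    (fun x _ => (hWopen.preimage (run_cont hF (w x) (hlt1 x))).mem_nhds (hw3 x))
  set J := t.card with hJ
  set blk : Fin J → List LM := fun j => w (t.equivFin.symm j : OnePoint ℂ) with hblk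
  set g : Fin J → OnePoint ℂ → OnePoint ℂ := fun j => run F (blk j) with hg
  have hgW : ∀ j, ∀ x ∈ W, g j x ∈ W := fun j x hx => run_mem hWrob (blk j) (hw2 _) hx
  have hgs : ∀ x, ∃ j, g j x ∈ W := by
    intro x
    obtain ⟨y, hy, hxy⟩ := mem_iUnion₂.1 (ht (mem_univ x))
    refine ⟨t.equivFin ⟨y, hy⟩, ?_⟩
    simp only [hg, hblk, Equiv.symm_apply_apply]
    exact hxy
  have hgc : ∀ j, Continuous (g j) := fun j => run_cont hF (blk j) (hlt1 _)
  choose V hV using fun j : Fin J => FinCV_run hF hcv (blk j) (hlt1 _)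
  obtain ⟨u, hu1, hu2⟩ := comb g W hgW hgs V
  set l : List LM := u.flatMap blk with hl
  have hrl : ∀ (v : List (Fin J)) (z : OnePoint ℂ), run F (v.flatMap blk) z = rn g v z := by
    intro v
    induction v with
    | nil => intro z; rfl
    | cons j v ih =>
      intro z
      rw [List.flatMap_cons, run_append, ih, rn_cons]
  have hl1 : l ≠ [] := by
    obtain ⟨j, v, rfl⟩ := List.exists_cons_of_ne_nil hu1
    rw [hl, List.flatMap_cons]
    intro h
    rw [List.append_eq_nil_iff] at h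
    exact hw1 _ h.1
  have hlη : ∀ L ∈ l, ‖L - 1‖ < η := by
    intro L hL
    rw [hl, List.mem_flatMap] at hL
    obtain ⟨j, -, hj⟩ := hL
    exact hw2 _ L hj
  have hl1' : ∀ L ∈ l, ‖L - 1‖ < 1 := fun L hL => (hlη L hL).trans_le hη1
  refine ⟨l, hl1, hlη, fun c hc => ?_⟩
  have hrun : run F l = rn g u := by funext z; exact hrl u z
  rw [hrun] at hc
  obtain ⟨a, b, j, hab, hj⟩ := stage hgc u c hc
  have h1 := hu2 a b j hab _ (hV j _ hj)
  have h2 : rn g b (g j (rn g a c)) = rn g u c := by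
    rw [hab, rn_append, rn_cons]
  rw [h2, ← hrun] at h1
  -- robustness of the composition
  obtain ⟨l', L₀, hlL⟩ := (List.eq_nil_or_concat' l).resolve_left hl1
  have hl'η : ∀ L ∈ l', ‖L - 1‖ < η := fun L hL => hlη L (by rw [hlL]; simp [hL])
  have hL₀ : ‖L₀ - 1‖ < η := hlη L₀ (by rw [hlL]; simp)
  obtain ⟨δ, hδ, hδ1, hδL⟩ := last_letter hL₀
  have hGm : Hm (lft F l) := lft_Hm hF l hl1'
  have hrob2 : ∀ z ∈ W, ∀ L : LM, ‖L - 1‖ < δ → st (lft F l) L z ∈ W := by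
    intro z hz L hL
    rw [hlL, lft_st hF l' (fun K hK => (hl'η K hK).trans_le hη1) L₀ L
      ((hδL L hL).trans_le hη1)]
    exact hWrob _ (run_mem hWrob l' hl'η hz) _ (hδL L hL)
  obtain ⟨m, p, B, z₀, hp, hB, hz₀, -, hxB, hfix, hlim, -⟩ := eh hGm hWopen hδ hδ1 hrob2 hWne h1
  rw [← run_lft hF l hl1'] at hxB hfix hlim
  refine att_of (run_cont hF l hl1') (m := m + 2) hp hB hz₀ hfix hlim ?_
  rw [Function.iterate_add_apply]
  exact hxB

end Pool.Agent.Q77.Semi
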