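import Mathlib
import Pool.Agent.H790R3.RB.TPQ
import Pool.Agent.H790R3.RB.TWR
import Pool.Agent.H790R3.RB.TINJL
import Pool.Agent.Q77.Semi.Core

/-! Rational maps: critical points; a fixed critical point has a robust trap. -/

set_option autoImplicit false

open Topology Filter Metric Set
open scoped OnePoint

namespace Pool.Agent.Q77.Semi

open Pool.Agent.H790R3.RB

theorem Hm_hF {d : ℕ} (hd : 1 ≤ d) {x : CV d} (hx : ND x) : Hm (hF x) where
  df := (INJL.hF_cd x).differentiable (by norm_num)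
  hom := ⟨d, hd, fun a p => hF_smul x a p⟩
  nd p hp h := hp (hx p h)

theorem wr_exists {d : ℕ} (hd : 2 ≤ d) {x : CV d} (hx : ND x) : ∃ ζ : ℂ, wr x (ζ, 1) ≠ 0 := by
  by_contra hcon
  push Not at hcon
  obtain ⟨hPQ, hsp⟩ := PQ SP d (by omega)
  obtain ⟨hcop, hmax, -, -, -⟩ := hPQ x hx
  obtain ⟨-, -, hjac⟩ := WR d x hd
  set P := pol x 0
  set Q := pol x 1
  have hder : ∀ ζ : ℂ, fderiv ℂ (hF x) (ζ, 1) (1, 0) =
      ((Polynomial.derivative P).eval ζ, (Polynomial.derivative Q).eval ζ) := by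
    intro ζ
    have h1 := (INJL.along x (ζ, 1) (1, 0)).hasDerivAt
    have h2 : (fun t : ℂ => hF x ((ζ, 1) + t • (1, 0))) =
        fun t : ℂ => (P.eval (ζ + t), Q.eval (ζ + t)) := by
      funext t
      have : ((ζ, 1) : ℂ × ℂ) + t • (1, 0) = (ζ + t, 1) := by ext <;> simp
      rw [this, PQ.hF_one]
    rw [h2] at h1
    have h3 : ∀ R : Polynomial ℂ, HasDerivAt (fun t : ℂ => R.eval (ζ + t))
        ((Polynomial.derivative R).eval ζ) 0 := by
      intro R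
      have h4 := R.hasDerivAt (ζ + 0)
      have h5 : HasDerivAt (fun t : ℂ => R.eval (ζ + t))
          ((Polynomial.derivative R).eval (ζ + 0) * 1) 0 :=
        h4.comp (0 : ℂ) ((hasDerivAt_id (0 : ℂ)).const_add ζ)
      rwa [mul_one, add_zero] at h5
    exact h1.unique ((h3 P).prodMk (h3 Q))
  have hpoly : Polynomial.derivative P * Q = P * Polynomial.derivative Q := by
    apply Polynomial.funext
    intro ζ
    have h1 := hjac (ζ, 1) (1, 0) (ζ, 1)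
    rw [INJL.euler, cr_smul_right, hder, PQ.hF_one, hcon ζ, zero_mul] at h1
    have h2 := (mul_eq_zero.1 h1).resolve_left (by exact_mod_cast (by omega : d ≠ 0))
    simp only [cr] at h2
    rw [Polynomial.eval_mul, Polynomial.eval_mul]
    linear_combination h2
  have hQ : Polynomial.derivative Q = 0 := by
    apply Polynomial.dvd_derivative_iff.1
    have h1 : Q ∣ P * Polynomial.derivative Q := by
      rw [← hpoly]; exact dvd_mul_left _ _
    exact hcop.symm.dvd_of_dvd_mul_left h1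
  have hP : Polynomial.derivative P = 0 := by
    apply Polynomial.dvd_derivative_iff.1
    have h1 : P ∣ Polynomial.derivative P * Q := by
      rw [hpoly]; exact dvd_mul_right _ _
    exact hcop.dvd_of_dvd_mul_right h1
  have h1 := Polynomial.derivative_eq_zero.1 hP
  have h2 := Polynomial.derivative_eq_zero.1 hQ
  rw [h1, h2] at hmax
  simp at hmax
  omega

theorem FinCV_hF {d : ℕ} (hd : 2 ≤ d) {x : CV d} (hx : ND x) : FinCV (sf (hF x)) := by
  classical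
  obtain ⟨ζ₀, hζ₀⟩ := wr_exists hd hx
  obtain ⟨-, ⟨W, -, hW, -⟩, -⟩ := WR d x hd
  have hW0 : W ≠ 0 := by
    rintro rfl
    rw [← hW] at hζ₀
    simp at hζ₀
  refine ⟨(insert ∞ (W.roots.toFinset.image (fun z : ℂ => (z : OnePoint ℂ)))).image (sf (hF x)),
    fun c hc => ?_⟩
  apply Finset.mem_image_of_mem
  rw [Finset.mem_insert]
  induction c using OnePoint.rec with
  | infty => exact Or.inl rfl
  | coe z =>
    right
    apply Finset.mem_image_of_mem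
    rw [Multiset.mem_toFinset, Polynomial.mem_roots hW0, Polynomial.IsRoot.def, hW]
    by_contra hne
    apply hc
    obtain ⟨U, hU, hUi⟩ := INJL SP WR d x (z, 1) hd hx (pt_ne z) hne
    have e : pr ((z, 1) : ℂ × ℂ) = (z : OnePoint ℂ) := by
      rw [SP.pr_ne (by simp)]; simp
    rw [e] at hU
    exact ⟨U, hU, hUi⟩

theorem crit_exists {d : ℕ} (hd : 2 ≤ d) (x : CV d) : ∃ q : ℂ × ℂ, q ≠ 0 ∧ wr x q = 0 := by
  obtain ⟨-, ⟨W, hWd, hW, hWc⟩, -⟩ := WR d x hd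
  by_cases h : wr x (1, 0) = 0
  · exact ⟨(1, 0), fun h => one_ne_zero (congrArg Prod.fst h), h⟩
  · have h1 : W.degree ≠ 0 := by
      intro h2
      have h3 := Polynomial.natDegree_eq_zero_iff_degree_le_zero.mpr h2.le
      have h4 : 2 * d - 2 ≤ W.natDegree := Polynomial.le_natDegree_of_ne_zero (by rw [hWc]; exact h)
      omega
    obtain ⟨z, hz⟩ := IsAlgClosed.exists_root W h1
    exact ⟨(z, 1), pt_ne z, by rw [← hW]; exact hz⟩

/-- the derivative is degenerate -/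
def Deg (F : ℂ × ℂ → ℂ × ℂ) (q : ℂ × ℂ) : Prop :=
  ∀ v w : ℂ × ℂ, cr (fderiv ℂ F q v) (fderiv ℂ F q w) = 0

theorem cr_lin (T : LM) {v w : ℂ × ℂ} (h : cr v w = 0) : cr (T v) (T w) = 0 := by
  have e : ∀ v : ℂ × ℂ, T v = v.1 • T (1, 0) + v.2 • T (0, 1) := by
    intro v
    rw [← map_smul, ← map_smul, ← map_add]
    congr 1
    ext <;> simp
  have h1 : cr (T v) (T w) = cr v w * cr (T (1, 0)) (T (0, 1)) := by
    rw [e v, e w]
    simp only [cr, Prod.fst_add, Prod.snd_add, Prod.smul_fst, Prod.smul_snd, smul_eq_mul]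
    ring
  rw [h1, h, zero_mul]

theorem Deg.comp {F G : ℂ × ℂ → ℂ × ℂ} (hF : Differentiable ℂ F) (hG : Differentiable ℂ G)
    {q : ℂ × ℂ} (h : Deg F q) : Deg (G ∘ F) q := by
  intro v w
  rw [fderiv_comp q (hG _) (hF _)]
  exact cr_lin (fderiv ℂ G (F q)) (h v w)

theorem Deg_hF {d : ℕ} (hd : 2 ≤ d) (x : CV d) {q : ℂ × ℂ} (hq : wr x q = 0) : Deg (hF x) q := by
  intro v w
  obtain ⟨-, -, hjac⟩ := WR d x hd
  rw [hjac, hq, zero_mul]

theorem Deg_lft {F : ℂ × ℂ → ℂ × ℂ} (hF : Hm F) {q : ℂ × ℂ} (hq : Deg F q) (l : List LM)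
    (hl : ∀ L ∈ l, ‖L - 1‖ < 1) (hl0 : l ≠ []) : Deg (lft F l) q := by
  obtain ⟨L, l', rfl⟩ := List.exists_cons_of_ne_nil hl0
  have e : lft F (L :: l') = lft F l' ∘ (L ∘ F) := rfl
  rw [e]
  have h1 : Hm (lft F l') := lft_Hm hF l' (fun K hK => hl K (List.mem_cons_of_mem _ hK))
  exact (hq.comp hF.df L.differentiable).comp (L.differentiable.comp hF.df) h1.df

theorem Hm.euler {G : ℂ × ℂ → ℂ × ℂ} (hG : Hm G) (q : ℂ × ℂ) :
    ∃ D : ℕ, 1 ≤ D ∧ fderiv ℂ G q q = (D : ℂ) • G q := by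
  obtain ⟨D, hD, hh⟩ := hG.hom
  refine ⟨D, hD, ?_⟩
  have h1 : HasDerivAt (fun t : ℂ => G ((1 + t) • q)) (fderiv ℂ G q q) 0 := by
    have h2 : HasDerivAt (fun t : ℂ => (1 + t) • q) ((1 : ℂ) • q) 0 :=
      ((hasDerivAt_id (0 : ℂ)).const_add 1).smul_const q
    rw [one_smul] at h2
    have h3 : HasFDerivAt G (fderiv ℂ G q) ((1 + (0 : ℂ)) • q) := by
      have := (hG.df q).hasFDerivAt
      simpa using this
    exact h3.comp_hasDerivAt (0 : ℂ) h2
  have h2 : HasDerivAt (fun t : ℂ => (1 + t) ^ D • G q) ((D : ℂ) • G q) 0 := by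
    have h3 : HasDerivAt (fun t : ℂ => (1 + t) ^ D) ((D : ℂ) * (1 + 0) ^ (D - 1) * 1) 0 :=
      ((hasDerivAt_id (0 : ℂ)).const_add 1).pow D
    have h4 := h3.smul_const (G q)
    simpa using h4
  have h5 : (fun t : ℂ => G ((1 + t) • q)) = fun t : ℂ => (1 + t) ^ D • G q := by
    funext t
    rw [hh]
  rw [h5] at h1
  exact h1.unique h2

/-- a fixed critical point has a small trap -/
theorem super {G : ℂ × ℂ → ℂ × ℂ} (hG : Hm G) {q : ℂ × ℂ} (hq : q ≠ 0) (hdeg : Deg G q)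
    (hfix : pr (G q) = pr q) :
    ∃ B K : Set (OnePoint ℂ), IsOpen B ∧ B.Nonempty ∧ B ≠ univ ∧ IsCompact K ∧ K ⊆ B ∧
      ∀ z ∈ B, sf G z ∈ K := by
  obtain ⟨Λ₁, hΛ₁⟩ := coords hq
  set Λ : (ℂ × ℂ) ≃L[ℂ] (ℂ × ℂ) := Λ₁.trans (ContinuousLinearEquiv.prodComm ℂ ℂ ℂ) with hΛd
  have hΛ : Λ q = (0, 1) := by
    rw [hΛd, ContinuousLinearEquiv.trans_apply, hΛ₁]; rfl
  have hΛi : Λ.symm (0, 1) = q := by rw [← hΛ]; simp
  set φ : ℂ → OnePoint ℂ := fun z => pr (Λ.symm (z, 1)) with hφ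
  have hne0 : ∀ z : ℂ, Λ.symm (z, 1) ≠ 0 := fun z => (equiv_Hm Λ.symm).nd _ (pt_ne z)
  have hφc : Continuous φ := by
    rw [continuous_iff_continuousAt]
    intro z
    exact ContinuousAt.comp (g := pr) (f := fun z : ℂ => Λ.symm (z, 1))
      (SP.continuousAt_pr (hne0 z)) (by fun_prop)
  have hφΛ : ∀ w : ℂ, sf Λ (φ w) = (w : OnePoint ℂ) := by
    intro w
    rw [hφ]
    simp only
    rw [sf_pr (equiv_Hm Λ) (hne0 w)]
    simp only [ContinuousLinearEquiv.apply_symm_apply]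
    rw [SP.pr_ne (by simp)]
    simp
  have hφinj : Function.Injective φ := by
    intro a b hab
    have h1 := congrArg (sf Λ) hab
    rw [hφΛ, hφΛ, OnePoint.coe_eq_coe] at h1
    exact h1
  have hΛφ : ∀ z : OnePoint ℂ, sf Λ.symm (sf Λ z) = z := by
    intro z
    rw [← sf_comp (equiv_Hm Λ.symm) (equiv_Hm Λ)]
    have : (Λ.symm ∘ Λ : ℂ × ℂ → ℂ × ℂ) = id := by funext p; simp
    rw [this]
    exact pr_hc' z
  have hφsf : ∀ w : ℂ, sf Λ.symm (w : OnePoint ℂ) = φ w := fun w => rfl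
  set Gh : ℂ → ℂ × ℂ := fun z => Λ (G (Λ.symm (z, 1))) with hGh
  -- value at the fixed point
  obtain ⟨b, hb, hGq⟩ : ∃ b : ℂ, b ≠ 0 ∧ G q = b • q := by
    rw [SP.pr_eq_iff (hG.nd q hq) hq, cr_eq_zero_iff (hG.nd q hq) hq] at hfix
    exact hfix
  have hGh0 : Gh 0 = (0, b) := by
    rw [hGh]
    simp only
    rw [hΛi, hGq, map_smul, hΛ]
    ext <;> simp
  -- derivative at the fixed point
  set v := fderiv ℂ G q (Λ.symm (1, 0)) with hv
  have hGd : HasDerivAt Gh (Λ v) 0 := by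
    have h1 : HasDerivAt (fun z : ℂ => Λ.symm (z, 1)) (Λ.symm (1, 0)) 0 :=
      Λ.symm.hasFDerivAt.comp_hasDerivAt (0 : ℂ)
        ((hasDerivAt_id (0 : ℂ)).prodMk (hasDerivAt_const (0 : ℂ) (1 : ℂ)))
    have h2 : HasFDerivAt G (fderiv ℂ G q) (Λ.symm (0, 1)) := by
      rw [hΛi]; exact (hG.df q).hasFDerivAt
    exact Λ.hasFDerivAt.comp_hasDerivAt (0 : ℂ) (h2.comp_hasDerivAt (0 : ℂ) h1)
  have hv0 : (Λ v).1 = 0 := by
    obtain ⟨D, hD, heul⟩ := hG.euler q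
    have h1 := hdeg (Λ.symm (1, 0)) q
    rw [← hv, heul, hGq, smul_smul, cr_smul_right] at h1
    have hDb : (D : ℂ) * b ≠ 0 :=
      mul_ne_zero (by exact_mod_cast (by omega : D ≠ 0)) hb
    have h2 : cr v q = 0 := (mul_eq_zero.1 h1).resolve_left hDb
    by_cases hv' : v = 0
    · rw [hv', map_zero]; rfl
    · obtain ⟨s, -, hs⟩ := (cr_eq_zero_iff hv' hq).1 h2
      rw [hs, map_smul, hΛ]
      simp
  set g : ℂ → ℂ := fun z => (Gh z).1 / (Gh z).2 with hg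
  have hgd : HasDerivAt g 0 0 := by
    have h1 : HasDerivAt (fun z => (Gh z).1) (Λ v).1 0 := hGd.fst
    have h2 : HasDerivAt (fun z => (Gh z).2) (Λ v).2 0 := hGd.snd
    have hne : (Gh 0).2 ≠ 0 := by rw [hGh0]; exact hb
    have h3 : HasDerivAt g (((Λ v).1 * (Gh 0).2 - (Gh 0).1 * (Λ v).2) / (Gh 0).2 ^ 2) 0 :=
      h1.div h2 hne
    rw [hv0, hGh0] at h3
    simpa using h3
  have hg0 : g 0 = 0 := by rw [hg]; simp only; rw [hGh0]; simp
  have hsmall : ∀ᶠ z in 𝓝 (0 : ℂ), ‖g z‖ ≤ 1 / 2 * ‖z‖ := by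
    have h1 := hgd.isLittleO.def (c := 1 / 2) (by norm_num)
    filter_upwards [h1] with z hz
    simpa [hg0] using hz
  have hGhc : ContinuousAt (fun z => (Gh z).2) 0 :=
    (show HasDerivAt (fun z => (Gh z).2) (Λ v).2 0 from hGd.snd).continuousAt
  have hden : ∀ᶠ z in 𝓝 (0 : ℂ), (Gh z).2 ≠ 0 :=
    hGhc.eventually_ne (by rw [hGh0]; exact hb)
  obtain ⟨ρ, hρ, hρs⟩ := Metric.eventually_nhds_iff_ball.1 (hsmall.and hden)
  have hconj : ∀ z ∈ ball (0 : ℂ) ρ, φ (g z) = sf G (φ z) := by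
    intro z hz
    have h2 := (hρs z hz).2
    rw [hφ]
    simp only
    rw [sf_pr hG (hne0 z)]
    have e : Gh z = (Gh z).2 • ((g z, 1) : ℂ × ℂ) := by
      ext
      · simp only [hg, Prod.smul_fst, smul_eq_mul]; field_simp
      · simp
    have e2 : G (Λ.symm (z, 1)) = (Gh z).2 • Λ.symm (g z, 1) := by
      rw [← map_smul, ← e, hGh]; simp
    rw [e2, pr_smul h2 (hne0 _)]
  refine ⟨φ '' ball 0 ρ, φ '' closedBall 0 (ρ / 2), ?_, ⟨φ 0, 0, mem_ball_self hρ, rfl⟩, ?_,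
    (isCompact_closedBall _ _).image hφc, ?_, ?_⟩
  · have hBeq : φ '' ball 0 ρ = (sf Λ) ⁻¹' ((fun z : ℂ => (z : OnePoint ℂ)) '' ball 0 ρ) := by
      ext z
      constructor
      · rintro ⟨w, hw, rfl⟩
        exact ⟨w, hw, (hφΛ w).symm⟩
      · rintro ⟨w, hw, hwz⟩
        refine ⟨w, hw, ?_⟩
        rw [← hφsf w, ← hΛφ z]
        congr 1
    rw [hBeq]
    exact (OnePoint.isOpenEmbedding_coe.isOpenMap _ isOpen_ball).preimage (sf_cont (equiv_Hm Λ))
  · intro h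
    have h1 : φ (ρ : ℂ) ∈ φ '' ball 0 ρ := by rw [h]; trivial
    obtain ⟨w, hw, hwρ⟩ := h1
    rw [hφinj hwρ, mem_ball_zero_iff, Complex.norm_real, Real.norm_eq_abs, abs_of_pos hρ] at hw
    exact lt_irrefl _ hw
  · rintro _ ⟨w, hw, rfl⟩
    exact ⟨w, closedBall_subset_ball (by linarith) hw, rfl⟩
  · rintro _ ⟨w, hw, rfl⟩
    rw [← hconj w hw]
    refine ⟨g w, ?_, rfl⟩
    have h1 := (hρs w hw).1
    rw [mem_ball_zero_iff] at hw
    rw [mem_closedBall_zero_iff]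
    linarith

end Pool.Agent.Q77.Semi
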