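import Mathlib
import Pool.Agent.Q77.Semi.Super

/-! Every rational map of degree at least two has small perturbations with a hyperbolic
composition. -/

set_option autoImplicit false

open Topology Filter Metric Set
open scoped OnePoint

namespace Pool.Agent.Q77.Semi

open Pool.Agent.H790R3.RB

theorem extend {F : ℂ × ℂ → ℂ × ℂ} (hF : Hm F) (hcv : FinCV (sf F)) {η : ℝ} (hη1 : η ≤ 1)
    (l' : List LM) (L₀ : LM) (hl' : ∀ L ∈ l', ‖L - 1‖ < η) (hL₀ : ‖L₀ - 1‖ < η)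
    {B K : Set (OnePoint ℂ)} (hB : IsOpen B) (hBn : B.Nonempty) (hBu : B ≠ univ)
    (hK : IsCompact K) (hKB : K ⊆ B) (hBK : ∀ z ∈ B, sf (lft F (l' ++ [L₀])) z ∈ K) :
    ∃ l : List LM, l ≠ [] ∧ (∀ L ∈ l, ‖L - 1‖ < η) ∧
      ∀ c, ¬ LI (run F l) c → Att (run F l) c := by
  have hall : ∀ L ∈ l' ++ [L₀], ‖L - 1‖ < 1 := by
    intro L hL
    rw [List.mem_append, List.mem_singleton] at hL
    rcases hL with hL | rfl
    · exact (hl' L hL).trans_le hη1
    · exact hL₀.trans_le hη1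
  have hl1 : ∀ L ∈ l', ‖L - 1‖ < 1 := fun L hL => (hl' L hL).trans_le hη1
  have hF1 : Hm (lft F (l' ++ [L₀])) := lft_Hm hF _ hall
  obtain ⟨δ₁, hδ₁, hδ₁1, h1⟩ := robust hK hB hKB
  obtain ⟨δ₂, hδ₂, -, h2⟩ := last_letter hL₀
  have hcv1 : FinCV (sf (lft F (l' ++ [L₀]))) := by
    rw [← run_lft hF _ hall]
    exact FinCV_run hF hcv _ hall
  obtain ⟨l, hl, hlδ, hatt⟩ := core hF1 hcv1 hB hBn hBu (lt_min hδ₁ hδ₂)
    ((min_le_left _ _).trans hδ₁1) (fun z hz L hL =>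
      h1 _ (hF1.nd _ (hc_ne z)) (hBK z hz) L (hL.trans_le (min_le_left _ _)))
  set e : LM → List LM := fun L => l' ++ [L * L₀] with he
  have hrun : ∀ v : List LM, (∀ L ∈ v, ‖L - 1‖ < min δ₁ δ₂) → ∀ z : OnePoint ℂ,
      run (lft F (l' ++ [L₀])) v z = run F (v.flatMap e) z := by
    intro v
    induction v with
    | nil => intro _ z; rfl
    | cons L v ih =>
      intro hv z
      have hL : ‖L * L₀ - 1‖ < 1 :=
        (h2 L ((hv L (by simp)).trans_le (min_le_right _ _))).trans_le hη1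
      rw [List.flatMap_cons, run_append, ← ih (fun K hK => hv K (by simp [hK])), he]
      simp only
      rw [run_snoc, ← lft_st hF l' hl1 L₀ L hL]
      rfl
  have hfun : run F (l.flatMap e) = run (lft F (l' ++ [L₀])) l := by
    funext z
    rw [hrun l hlδ]
  refine ⟨l.flatMap e, ?_, ?_, ?_⟩
  · obtain ⟨L, v, rfl⟩ := List.exists_cons_of_ne_nil hl
    rw [List.flatMap_cons, he]
    simp
  · intro L hL
    rw [List.mem_flatMap] at hL
    obtain ⟨M, hM, hL⟩ := hL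
    rw [he] at hL
    simp only [List.mem_append, List.mem_singleton] at hL
    rcases hL with hL | rfl
    · exact hl' L hL
    · exact h2 M ((hlδ M hM).trans_le (min_le_right _ _))
  · rw [hfun]
    exact hatt

/-- **Main theorem**, in homogeneous coordinates. -/
theorem base {F : ℂ × ℂ → ℂ × ℂ} (hF : Hm F) (hcv : FinCV (sf F)) (hcrit : ∃ q : ℂ × ℂ, q ≠ 0 ∧
    Deg F q) {η : ℝ} (hη : 0 < η) (hη1 : η ≤ 1) :
    ∃ l : List LM, l ≠ [] ∧ (∀ L ∈ l, ‖L - 1‖ < η) ∧
      ∀ c, ¬ LI (run F l) c → Att (run F l) c := by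
  have h1η : ‖(1 : LM) - 1‖ < η := by simpa using hη
  by_cases hA : ∃ y, Tset F η y ≠ univ
  · obtain ⟨y, hy⟩ := hA
    exact core hF hcv (Tset_open hF hη1 y) ⟨_, Tset_first (F := F) (x := y) h1η⟩ hy hη hη1
      (fun z hz L hL => Tset_step hz hL)
  · push Not at hA
    obtain ⟨q, hq, hdq⟩ := hcrit
    have hmem : pr q ∈ Tset F η (pr q) := by rw [hA]; trivial
    obtain ⟨l₀, hl₀, hl₀η, hrun⟩ := hmem
    have hl₀1 : ∀ L ∈ l₀, ‖L - 1‖ < 1 := fun L hL => (hl₀η L hL).trans_le hη1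
    have hG : Hm (lft F l₀) := lft_Hm hF l₀ hl₀1
    have hdeg : Deg (lft F l₀) q := Deg_lft hF hdq l₀ hl₀1 hl₀
    have hfix : pr (lft F l₀ q) = pr q := by
      rw [run_lft hF l₀ hl₀1, sf_pr hG hq] at hrun
      exact hrun
    obtain ⟨B, K, hB, hBn, hBu, hK, hKB, hBK⟩ := super hG hq hdeg hfix
    obtain ⟨l', L₀, hlL⟩ := (List.eq_nil_or_concat' l₀).resolve_left hl₀
    refine extend hF hcv hη1 l' L₀ (fun L hL => hl₀η L (by rw [hlL]; simp [hL]))
      (hl₀η L₀ (by rw [hlL]; simp)) hB hBn hBu hK hKB ?_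
    rw [← hlL]
    exact hBK

/-! ### Coefficients -/

/-- the coefficients of the composition with a linear map -/
noncomputable def cv {d : ℕ} (L : LM) (x : CV d) : CV d := fun i =>
  if i.1 = 0 then (L (x (0, i.2), x (1, i.2))).1 else (L (x (0, i.2), x (1, i.2))).2

theorem cv_zero {d : ℕ} (L : LM) (x : CV d) (j : Fin (d + 1)) :
    cv L x (0, j) = (L (x (0, j), x (1, j))).1 := by simp [cv]

theorem cv_one {d : ℕ} (L : LM) (x : CV d) (j : Fin (d + 1)) :
    cv L x (1, j) = (L (x (0, j), x (1, j))).2 := by simp [cv]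

theorem hF_sum {d : ℕ} (x : CV d) (p : ℂ × ℂ) :
    hF x p = ∑ j : Fin (d + 1), (p.1 ^ (j : ℕ) * p.2 ^ (d - (j : ℕ))) • (x (0, j), x (1, j)) := by
  unfold hF
  ext
  · simp only [Prod.fst_sum, Prod.smul_fst, smul_eq_mul]
    refine Finset.sum_congr rfl fun j _ => ?_
    ring
  · simp only [Prod.snd_sum, Prod.smul_snd, smul_eq_mul]
    refine Finset.sum_congr rfl fun j _ => ?_
    ring

theorem hF_cv {d : ℕ} (L : LM) (x : CV d) (p : ℂ × ℂ) : hF (cv L x) p = L (hF x p) := by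
  rw [hF_sum, hF_sum, map_sum]
  refine Finset.sum_congr rfl fun j _ => ?_
  rw [map_smul, cv_zero, cv_one]

theorem ND_cv {d : ℕ} {L : LM} (hL : ‖L - 1‖ < 1) {x : CV d} (hx : ND x) : ND (cv L x) := by
  intro p hp
  by_contra hne
  rw [hF_cv] at hp
  exact near_nd hL _ (fun h => hne (hx p h)) hp

theorem cv_close {d : ℕ} (L : LM) (x : CV d) (i : Fin 2) (j : Fin (d + 1)) :
    ‖cv L x (i, j) - x (i, j)‖ ≤ ‖L - 1‖ * ‖x‖ := by
  have h1 : ‖(L - 1) (x (0, j), x (1, j))‖ ≤ ‖L - 1‖ * ‖x‖ := by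
    refine ((L - 1).le_opNorm _).trans ?_
    gcongr
    rw [Prod.norm_def]
    exact max_le (norm_le_pi_norm x _) (norm_le_pi_norm x _)
  have h2 : (L - 1) (x (0, j), x (1, j)) =
      (cv L x (0, j) - x (0, j), cv L x (1, j) - x (1, j)) := by
    rw [sub_apply, one_ap, cv_zero, cv_one]
    rfl
  rw [h2, Prod.norm_def] at h1
  fin_cases i
  · exact (le_max_left _ _).trans h1
  · exact (le_max_right _ _).trans h1

/-! ### The composition is a rational map of degree `d ^ N` -/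

open ISO in
/-- a nondegenerate homogeneous map is given by coefficients -/
theorem GM_coef {D : ℕ} {G : ℂ × ℂ → ℂ × ℂ} (hG : GM D G) : ∃ y : CV D, ND y ∧ hF y = G := by
  obtain ⟨P, hP1, hP2, hP3⟩ := hG.h1.pol (0, 1) (1, 0)
  obtain ⟨Q, hQ1, hQ2, hQ3⟩ := hG.h2.pol (0, 1) (1, 0)
  have key : ∀ (R : Polynomial ℂ) (Φ : ℂ × ℂ → ℂ), BF D Φ → R.natDegree ≤ D →
      (∀ t : ℂ, R.eval t = Φ ((0, 1) + t • (1, 0))) → R.coeff D = Φ (1, 0) →
      ∀ p : ℂ × ℂ, ∑ j : Fin (D + 1), R.coeff (j : ℕ) * (p.1 ^ (j : ℕ) * p.2 ^ (D - (j : ℕ))) =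
        Φ p := by
    intro R Φ hΦ hR hRe hRc p
    by_cases hp : p.2 = 0
    · have e1 : p = p.1 • ((1, 0) : ℂ × ℂ) := by ext <;> simp [hp]
      rw [Finset.sum_eq_single_of_mem (Fin.last D) (Finset.mem_univ _)]
      · conv_rhs => rw [e1, hΦ.hom, ← hRc]
        rw [Fin.val_last, Nat.sub_self, pow_zero]
        ring
      · intro j _ hj
        have : D - (j : ℕ) ≠ 0 := by
          have h1 := j.2
          have h2 : (j : ℕ) ≠ D := fun h => hj (Fin.ext (by rw [Fin.val_last]; exact h))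
          omega
        rw [hp, zero_pow this]; ring
    · have e1 : p = p.2 • ((0, 1) + (p.1 / p.2) • ((1, 0) : ℂ × ℂ)) := by
        ext
        · simp; field_simp
        · simp
      conv_rhs => rw [e1, hΦ.hom, ← hRe, Polynomial.eval_eq_sum_range' (Nat.lt_succ_of_le hR)]
      rw [Finset.mul_sum, ← Fin.sum_univ_eq_sum_range
        (fun j => p.2 ^ D * (R.coeff j * (p.1 / p.2) ^ j)) (D + 1)]
      refine Finset.sum_congr rfl fun j _ => ?_
      have h1 : p.2 ^ D = p.2 ^ (D - (j : ℕ)) * p.2 ^ (j : ℕ) := by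
        rw [← pow_add]
        congr 1
        have := j.2
        omega
      rw [h1, div_pow]
      field_simp
  set y : CV D := fun i => if i.1 = 0 then P.coeff (i.2 : ℕ) else Q.coeff (i.2 : ℕ) with hy
  have hyG : hF y = G := by
    funext p
    ext
    · have := key P _ hG.h1 hP1 hP2 hP3 p
      rw [← this]
      simp [hF, hy]
    · have := key Q _ hG.h2 hQ1 hQ2 hQ3 p
      rw [← this]
      simp [hF, hy]
  exact ⟨y, fun p hp => hG.nd p (by rw [← hyG]; exact hp), hyG⟩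

end Pool.Agent.Q77.Semi
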