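import Mathlib
import Pool.Agent.Q77.Semi.Base

/-! Periodic sequences of rational maps. -/

set_option autoImplicit false

open Topology Filter Metric Set
open scoped OnePoint

namespace Pool.Agent.Q77.Semi

open Pool.Agent.H790R3.RB

/-- the composition of the first `n` maps of a sequence, homogeneous coordinates -/
noncomputable def GG {d : ℕ} (Y : ℕ → CV d) : ℕ → ℂ × ℂ → ℂ × ℂ
  | 0 => id
  | n + 1 => fun p => hF (Y n) (GG Y n p)

/-- the composition of the first `n` maps of a sequence -/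
def cps (f : ℕ → OnePoint ℂ → OnePoint ℂ) : ℕ → OnePoint ℂ → OnePoint ℂ
  | 0 => id
  | n + 1 => fun z => f n (cps f n z)

theorem GG_Hm {d : ℕ} (hd : 1 ≤ d) {Y : ℕ → CV d} (hY : ∀ i, ND (Y i)) (n : ℕ) : Hm (GG Y n) := by
  induction n with
  | zero => exact ⟨differentiable_id, ⟨1, le_rfl, fun a p => by simp [GG]⟩, fun p hp => hp⟩
  | succ n ih => exact (Hm_hF hd (hY n)).comp ih

theorem sf_GG {d : ℕ} (hd : 1 ≤ d) {Y : ℕ → CV d} (hY : ∀ i, ND (Y i)) (n : ℕ) :
    sf (GG Y n) = cps (fun i => sp (Y i)) n := by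
  induction n with
  | zero =>
    funext z
    exact pr_hc' z
  | succ n ih =>
    funext z
    have h : GG Y (n + 1) = hF (Y n) ∘ GG Y n := rfl
    rw [h, sf_comp (Hm_hF hd (hY n)) (GG_Hm hd hY n), ih]
    rfl

theorem FinCV_GG {d : ℕ} (hd : 2 ≤ d) {Y : ℕ → CV d} (hY : ∀ i, ND (Y i)) (n : ℕ) :
    FinCV (sf (GG Y n)) := by
  induction n with
  | zero =>
    have : sf (GG Y 0) = id := by funext z; exact pr_hc' z
    rw [this]
    exact ⟨∅, fun x hx => absurd ⟨univ, univ_mem, fun a _ b _ hab => hab⟩ hx⟩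
  | succ n ih =>
    have h : sf (GG Y (n + 1)) = sf (hF (Y n)) ∘ sf (GG Y n) := by
      funext z
      exact sf_comp (Hm_hF (by omega) (hY n)) (GG_Hm (by omega) hY n) z
    rw [h]
    exact ih.comp (sf_cont (GG_Hm (by omega) hY n)) (FinCV_hF hd (hY n))

theorem Deg_GG {d : ℕ} (hd : 2 ≤ d) {Y : ℕ → CV d} (hY : ∀ i, ND (Y i)) {q : ℂ × ℂ}
    (hq : wr (Y 0) q = 0) (n : ℕ) : Deg (GG Y (n + 1)) q := by
  induction n with
  | zero => exact Deg_hF hd (Y 0) hq
  | succ n ih =>
    have h : GG Y (n + 1 + 1) = hF (Y (n + 1)) ∘ GG Y (n + 1) := rfl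
    rw [h]
    exact ih.comp (GG_Hm (by omega) hY (n + 1)).df (Hm_hF (by omega) (hY (n + 1))).df

open ISO in
theorem GG_GM {d : ℕ} {Y : ℕ → CV d} (hY : ∀ i, ND (Y i)) (n : ℕ) : GM (d ^ n) (GG Y n) := by
  induction n with
  | zero =>
    rw [pow_zero]
    exact GM.id
  | succ n hG =>
    have hmon : ∀ j : Fin (d + 1), BF (d * d ^ n)
        (fun p => (GG Y n p).1 ^ (j : ℕ) * (GG Y n p).2 ^ (d - (j : ℕ))) := by
      intro j
      have h1 := (hG.h1.pow (j : ℕ)).mul (hG.h2.pow (d - (j : ℕ)))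
      have h2 : (j : ℕ) * d ^ n + (d - (j : ℕ)) * d ^ n = d * d ^ n := by
        rw [← add_mul]
        congr 1
        have := j.2
        omega
      rw [h2] at h1
      exact h1
    rw [pow_succ, mul_comm]
    refine ⟨?_, ?_, ?_⟩
    · exact BF.sum Finset.univ (fun j _ => (hmon j).smul (Y n (0, j)))
    · exact BF.sum Finset.univ (fun j _ => (hmon j).smul (Y n (1, j)))
    · intro p hp
      exact hG.nd p (hY n _ hp)

/-- the perturbed sequence -/
noncomputable def pert {d : ℕ} (X : ℕ → CV d) (k : ℕ) (l : List LM) (m : ℕ) : CV d :=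
  if m % k + 1 = k then cv (l.getD (m / k % l.length) 1) (X m) else X m

theorem pert_eq {d : ℕ} (X : ℕ → CV d) (k : ℕ) (l : List LM) (m : ℕ) :
    ∃ L : LM, (L = 1 ∨ L ∈ l) ∧ pert X k l m = cv L (X m) := by
  have h1 : cv 1 (X m) = X m := by
    funext ⟨i, j⟩
    fin_cases i
    · exact cv_zero 1 (X m) j
    · exact cv_one 1 (X m) j
  unfold pert
  split_ifs with h
  · refine ⟨_, ?_, rfl⟩
    by_cases hl : m / k % l.length < l.length
    · right
      rw [List.getD_eq_getElem _ _ hl]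
      exact List.getElem_mem hl
    · left
      exact List.getD_eq_default _ _ (not_lt.1 hl)
  · exact ⟨1, Or.inl rfl, h1.symm⟩

theorem pert_periodic {d : ℕ} {X : ℕ → CV d} {k : ℕ} (hk : 1 ≤ k) (hX : ∀ i, X (i + k) = X i)
    (l : List LM) (m : ℕ) : pert X k l (m + k * l.length) = pert X k l m := by
  have hX' : ∀ n i, X (i + k * n) = X i := by
    intro n
    induction n with
    | zero => intro i; simp
    | succ n ih =>
      intro i
      rw [Nat.mul_succ, ← add_assoc, hX, ih]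
  unfold pert
  have h1 : (m + k * l.length) % k = m % k := Nat.add_mul_mod_self_left _ _ _
  have h2 : (m + k * l.length) / k % l.length = m / k % l.length := by
    rw [Nat.add_mul_div_left _ _ (by omega), Nat.add_mod_right]
  rw [h1, h2, hX']

theorem cps_block {d : ℕ} (hd : 1 ≤ d) {X : ℕ → CV d} (hXnd : ∀ i, ND (X i)) {k : ℕ} (hk : 1 ≤ k)
    (hX : ∀ i, X (i + k) = X i) (l : List LM) (hl : ∀ L ∈ l, ‖L - 1‖ < 1) (j : ℕ)
    (hj : j ≤ l.length) (z : OnePoint ℂ) :
    cps (fun m => sp (pert X k l m)) (k * j) z = run (GG X k) (l.take j) z := by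
  have hX' : ∀ n i, X (k * n + i) = X i := by
    intro n
    induction n with
    | zero => intro i; simp
    | succ n ih =>
      intro i
      have : k * (n + 1) + i = k * n + i + k := by ring
      rw [this, hX, ih]
  induction j with
  | zero => rfl
  | succ j ih =>
    have hj' : j < l.length := hj
    have ih' := ih (by omega)
    -- inside the block
    have hin : ∀ i : ℕ, i + 1 ≤ k → cps (fun m => sp (pert X k l m)) (k * j + i) z =
        sf (GG X i) (run (GG X k) (l.take j) z) := by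
      intro i
      induction i with
      | zero =>
        intro _
        rw [add_zero, ih']
        exact (pr_hc' _).symm
      | succ i ihi =>
        intro hi
        have e1 : cps (fun m => sp (pert X k l m)) (k * j + (i + 1)) z =
          sp (pert X k l (k * j + i)) (cps (fun m => sp (pert X k l m)) (k * j + i) z) := rfl
        rw [e1, ihi (by omega)]
        have e2 : pert X k l (k * j + i) = X i := by
          unfold pert
          rw [if_neg, hX']
          rw [Nat.mul_add_mod, Nat.mod_eq_of_lt (by omega)]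
          omega
        rw [e2]
        have e3 : GG X (i + 1) = hF (X i) ∘ GG X i := rfl
        rw [e3, sf_comp (Hm_hF hd (hXnd i)) (GG_Hm hd hXnd i)]
        rfl
    obtain ⟨k', rfl⟩ : ∃ k', k = k' + 1 := ⟨k - 1, by omega⟩
    have e0 : (k' + 1) * (j + 1) = (k' + 1) * j + k' + 1 := by ring
    have e1 : cps (fun m => sp (pert X (k' + 1) l m)) ((k' + 1) * (j + 1)) z =
        sp (pert X (k' + 1) l ((k' + 1) * j + k'))
          (cps (fun m => sp (pert X (k' + 1) l m)) ((k' + 1) * j + k') z) := by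
      rw [e0]; rfl
    rw [e1, hin k' le_rfl]
    have e2 : pert X (k' + 1) l ((k' + 1) * j + k') = cv l[j] (X k') := by
      unfold pert
      have h1 : ((k' + 1) * j + k') % (k' + 1) = k' := by
        rw [Nat.mul_add_mod, Nat.mod_eq_of_lt (by omega)]
      have h2 : ((k' + 1) * j + k') / (k' + 1) = j := by
        rw [Nat.mul_add_div (by omega), Nat.div_eq_of_lt (by omega), add_zero]
      rw [h1, if_pos rfl, h2, Nat.mod_eq_of_lt hj', List.getD_eq_getElem _ _ hj', hX']
    rw [e2, List.take_add_one, List.getElem?_eq_getElem hj', Option.toList_some, run_snoc]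
    set w := run (GG X (k' + 1)) (l.take j) z
    have hL : ‖l[j] - 1‖ < 1 := hl _ (List.getElem_mem hj')
    have e4 : st (GG X (k' + 1)) l[j] w = pr (l[j] (hF (X k') (GG X k' (hc w)))) := rfl
    have e5 : sf (GG X k') w = pr (GG X k' (hc w)) := rfl
    have e6 : sp (cv l[j] (X k')) = sf (hF (cv l[j] (X k'))) := rfl
    rw [e4, e5, e6, sf_pr (Hm_hF hd (ND_cv hL (hXnd k')))
      ((GG_Hm hd hXnd k').nd _ (hc_ne w)), hF_cv]

/-- **Density of hyperbolicity for periodic sequences.** -/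
theorem seq {d : ℕ} (hd : 2 ≤ d) {X : ℕ → CV d} (hXnd : ∀ i, ND (X i)) {k : ℕ} (hk : 1 ≤ k)
    (hX : ∀ i, X (i + k) = X i) {η : ℝ} (hη : 0 < η) (hη1 : η ≤ 1) :
    ∃ (N : ℕ) (Λ : ℕ → LM), 1 ≤ N ∧ (∀ i, ‖Λ i - 1‖ < η) ∧
      (∀ i, cv (Λ (i + k * N)) (X (i + k * N)) = cv (Λ i) (X i)) ∧
      (∃ y : CV (d ^ (k * N)), ND y ∧ cps (fun m => sp (cv (Λ m) (X m))) (k * N) = sp y) ∧
      ∀ c, ¬ LI (cps (fun m => sp (cv (Λ m) (X m))) (k * N)) c →
        Att (cps (fun m => sp (cv (Λ m) (X m))) (k * N)) c := by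
  have hd1 : 1 ≤ d := by omega
  obtain ⟨q, hq, hwr⟩ := crit_exists hd (X 0)
  obtain ⟨k', hk'⟩ : ∃ k', k = k' + 1 := ⟨k - 1, by omega⟩
  obtain ⟨l, hl, hlη, hatt⟩ := base (GG_Hm hd1 hXnd k) (FinCV_GG hd hXnd k)
    ⟨q, hq, by rw [hk']; exact Deg_GG hd hXnd hwr k'⟩ hη hη1
  have hl1 : ∀ L ∈ l, ‖L - 1‖ < 1 := fun L hL => (hlη L hL).trans_le hη1
  choose Λ hΛ1 hΛ2 using pert_eq X k l
  have hΛη : ∀ i, ‖Λ i - 1‖ < η := by
    intro i
    rcases hΛ1 i with h | h
    · rw [h]; simpa using hη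
    · exact hlη _ h
  have hcps : (fun m => sp (cv (Λ m) (X m))) = fun m => sp (pert X k l m) := by
    funext m
    rw [hΛ2]
  have hrun : cps (fun m => sp (cv (Λ m) (X m))) (k * l.length) = run (GG X k) l := by
    funext z
    rw [hcps, cps_block hd1 hXnd hk hX l hl1 l.length le_rfl z, List.take_length]
  refine ⟨l.length, Λ, List.length_pos_of_ne_nil hl, hΛη, ?_, ?_, ?_⟩
  · intro i
    rw [← hΛ2, ← hΛ2, pert_periodic hk hX]
  · have hY : ∀ i, ND (cv (Λ i) (X i)) := fun i => ND_cv ((hΛη i).trans_le hη1) (hXnd i)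
    obtain ⟨y, hy, hyG⟩ := GM_coef (GG_GM hY (k * l.length))
    refine ⟨y, hy, ?_⟩
    rw [← sf_GG hd1 hY, ← hyG]
    rfl
  · rw [hrun]
    exact hatt

end Pool.Agent.Q77.Semi
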